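import Pool.Agent.H7QC.LowerQ
import Pool.Agent.H7CA.AsymD

/-!
# Arrays with counting quantifiers
-/

namespace Pool.Agent.H7QC

open Pool.Agent.PPS Pool.Agent.H7LS Pool.Agent.H7CA Filter Asymptotics

/-- Hard languages are hard for arrays with counting quantifiers. -/
theorem arrays_of_hardQ {k K : ℕ} {c : ℝ} {L : Set (List Bool)} (hk : 1 ≤ k)
    (hlow : HardQ k K c L) : ∀ d : ℕ, ∀ f ∈ FLIN, ∀ p s T : ℕ → ℕ,
      (fun n : ℕ => (p n : ℝ) + s n) =o[atTop] (fun n : ℕ => (n : ℝ) ^ k) →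
      (fun n : ℕ => ((T n : ℝ) * Nat.log 2 n) ^ (d + 1) * s n) =o[atTop]
        (fun n : ℕ => (n : ℝ) ^ (k * (d + 2))) →
      ∀ᶠ n : ℕ in atTop, ∀ (b a : List Bool) (q : List (ℕ × ℕ)), b.length ≤ p n →
        a.length ≤ K * n ^ k → (q.map (fun r => r.1 + 1)).sum ≤ K * n ^ k →
        |({x : List Bool | x.length = n ∧
            (quant q (fun y => (arr d (ruleD f b) n (s n) x (y ++ a) (T n) 0).getD 0 false) =
              true ↔ x ∈ L)}.ncard : ℝ) / 2 ^ n - 1 / 2| ≤ 2 ^ (-(c * n)) := by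
  intro d f hf p s T ho0 ho2
  have ho1 : (fun n : ℕ => (s n : ℝ)) =o[atTop] (fun n : ℕ => (n : ℝ) ^ k) := by
    refine IsBigO.trans_isLittleO (IsBigO.of_bound 1 (Eventually.of_forall fun n => ?_)) ho0
    rw [one_mul, Real.norm_of_nonneg (by positivity), Real.norm_of_nonneg (by positivity)]
    have : (0 : ℝ) ≤ p n := Nat.cast_nonneg _
    linarith
  obtain ⟨T', hT'⟩ : ∃ T' : ℕ → ℕ, T' = fun n => if s n = 0 then 0 else T n := ⟨_, rfl⟩
  have hT0 : ∀ n, s n = 0 → T' n = 0 := fun n h => by rw [hT']; simp [h]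
  have hTle : ∀ n, T' n ≤ T n := fun n => by
    rw [hT']; simp only; split_ifs <;> omega
  choose h hh1 hh2 hh3 hh4 using fun n => exists_step (D := d + 1) (T := T' n)
    (w := Nat.log 2 n) (s := s n) (by omega) (hT0 n)
  obtain ⟨Y, hY⟩ : ∃ Y : ℕ → ℕ, Y = fun n => h n ^ (d + 1) * s n := ⟨_, rfl⟩
  obtain ⟨μ, hμ⟩ : ∃ μ : ℕ → ℕ, μ = fun n => (Nat.log 2 n + 1) *
      (2 * k * (d + 1 + 1) + (d + 1) + 6) := ⟨_, rfl⟩
  -- the conditions for large n
  have hTn : ∀ n, (T' n * Nat.log 2 n) ^ (d + 1) * s n ≤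
      (T n * Nat.log 2 n) ^ (d + 1) * s n := by
    intro n
    exact Nat.mul_le_mul_right _ (Nat.pow_le_pow_left (Nat.mul_le_mul_right _ (hTle n)) _)
  have ev1 : ∀ᶠ n : ℕ in atTop, s n ≤ n ^ k := by
    filter_upwards [ho1.bound (show (0 : ℝ) < 1 by norm_num)] with n hn
    rw [Real.norm_of_nonneg (by positivity), Real.norm_of_nonneg (by positivity),
      one_mul] at hn
    exact_mod_cast hn
  have ev2 : ∀ᶠ n : ℕ in atTop, (T' n * Nat.log 2 n) ^ (d + 1) * s n ≤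
      n ^ (k * (d + 1 + 1)) := by
    filter_upwards [ho2.bound (show (0 : ℝ) < 1 by norm_num)] with n hn
    rw [Real.norm_of_nonneg (by positivity), Real.norm_of_nonneg (by positivity),
      one_mul] at hn
    have h1 : (T n * Nat.log 2 n) ^ (d + 1) * s n ≤ n ^ (k * (d + 2)) := by exact_mod_cast hn
    exact (hTn n).trans h1
  -- the little-o conditions
  have hYo : (fun n : ℕ => (Y n : ℝ)) =o[atTop] (fun n : ℕ => (n : ℝ) ^ k) := by
    rw [isLittleO_iff]
    intro ε hε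
    obtain ⟨η, hη⟩ : ∃ η : ℝ, η = ε ^ (d + 2) / (2 * 2 ^ ((d + 1) * (d + 2))) := ⟨_, rfl⟩
    have hη0 : 0 < η := by rw [hη]; positivity
    obtain ⟨θ, hθ⟩ : ∃ θ : ℝ, θ = ε / 2 := ⟨_, rfl⟩
    have hθ0 : 0 < θ := by rw [hθ]; positivity
    filter_upwards [ho2.bound hη0, ho1.bound hθ0] with n hn hn'
    rw [Real.norm_of_nonneg (by positivity), Real.norm_of_nonneg (by positivity)] at hn
    rw [Real.norm_of_nonneg (by positivity), Real.norm_of_nonneg (by positivity)] at hn'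
    rw [Real.norm_of_nonneg (by positivity), Real.norm_of_nonneg (by positivity)]
    refine le_of_pow_le_pow_left₀ (n := d + 2) (by omega) (by positivity) ?_
    have h1 : (Y n : ℝ) ^ (d + 2) ≤ 2 ^ ((d + 1) * (d + 2)) *
        (((T n : ℝ) * Nat.log 2 n) ^ (d + 1) * s n) + (s n : ℝ) ^ (d + 2) := by
      have h2 : Y n ^ (d + 2) ≤ 2 ^ ((d + 1) * (d + 2)) *
        ((T n * Nat.log 2 n) ^ (d + 1) * s n) + s n ^ (d + 2) := by
        rw [hY]
        exact (hh4 n).trans (Nat.add_le_add_right (Nat.mul_le_mul_left _ (hTn n)) _)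
      exact_mod_cast h2
    have h3 : (s n : ℝ) ^ (d + 2) ≤ (θ * (n : ℝ) ^ k) ^ (d + 2) :=
      pow_le_pow_left₀ (by positivity) hn' _
    have h4 : (θ : ℝ) ^ (d + 2) ≤ ε ^ (d + 2) / 2 := by
      rw [hθ, div_pow]
      have h5 : (2 : ℝ) ≤ 2 ^ (d + 2) := by
        calc (2 : ℝ) = 2 ^ 1 := by norm_num
          _ ≤ 2 ^ (d + 2) := pow_le_pow_right₀ (by norm_num) (by omega)
      exact div_le_div_of_nonneg_left (by positivity) (by norm_num) h5
    calc (Y n : ℝ) ^ (d + 2) ≤ 2 ^ ((d + 1) * (d + 2)) *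
        (((T n : ℝ) * Nat.log 2 n) ^ (d + 1) * s n) + (s n : ℝ) ^ (d + 2) := h1
      _ ≤ 2 ^ ((d + 1) * (d + 2)) * (η * (n : ℝ) ^ (k * (d + 2))) +
          (θ * (n : ℝ) ^ k) ^ (d + 2) :=
        add_le_add (mul_le_mul_of_nonneg_left hn (by positivity)) h3
      _ = ε ^ (d + 2) / 2 * ((n : ℝ) ^ k) ^ (d + 2) + θ ^ (d + 2) * ((n : ℝ) ^ k) ^ (d + 2) := by
        have h6 : (2 : ℝ) ^ ((d + 1) * (d + 2)) * η = ε ^ (d + 2) / 2 := by
          rw [hη]; field_simp
        rw [← mul_assoc, h6, mul_pow, pow_mul (n : ℝ) k (d + 2)]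
      _ ≤ ε ^ (d + 2) / 2 * ((n : ℝ) ^ k) ^ (d + 2) +
          ε ^ (d + 2) / 2 * ((n : ℝ) ^ k) ^ (d + 2) :=
        add_le_add_right (mul_le_mul_of_nonneg_right h4 (by positivity)) _
      _ = (ε * (n : ℝ) ^ k) ^ (d + 2) := by rw [mul_pow]; ring
  have hpow : (fun n : ℕ => (n : ℝ)) =O[atTop] (fun n : ℕ => (n : ℝ) ^ k) := by
    refine IsBigO.of_bound 1 ?_
    filter_upwards [eventually_ge_atTop 1] with n hn
    rw [one_mul, Real.norm_of_nonneg (by positivity), Real.norm_of_nonneg (by positivity)]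
    have := le_pow_self' n hk
    exact_mod_cast this
  obtain ⟨κ, hκ⟩ : ∃ κ : ℕ, κ = 2 * k * (d + 1 + 1) + (d + 1) + 6 := ⟨_, rfl⟩
  obtain ⟨C, hC⟩ : ∃ C : ℕ, C = cst k (d + 1) + (4 * d + 20) + 13 := ⟨_, rfl⟩
  have hG : (fun n : ℕ => (C : ℝ) * ((κ : ℝ) ^ 2 *
      (((Nat.log 2 n : ℝ) + 1) * ((Nat.log 2 n : ℝ) + 1)) + (Y n : ℝ)) +
      4 * ((p n : ℝ) + s n)) =o[atTop] (fun n : ℕ => (n : ℝ) ^ k) :=
    ((((sq_log_isLittleO.trans_isBigO hpow).const_mul_left _).add hYo).const_mul_left _).add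
      (ho0.const_mul_left _)
  have key := hlow (arMD f (d + 1)) (arMD_addr_mem f _) (arMD_upd_mem hf _)
    (fun n => (d + 1) * μ n)
    (fun n => (h n + h n + (h n + h n) + 2) ^ (d + 1) * (4 * s n + 2) +
      (4 * h n + 2 * (d + 1) + 2 * ((d + 1) * μ n) + 20))
    (fun n => (d + 1) * (Nat.clog 2 (h n + h n) + 1 + T' n / h n) + 1)
    (fun n => 4 * p n + (4 * d + 20) * μ n + 13) (by
      refine IsBigO.trans_isLittleO (IsBigO.of_bound 1 ?_) hG
      filter_upwards [ev1, ev2, eventually_ge_atTop 2] with n hn1 hn2 hn3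
      obtain ⟨_, _, _, _, _, h2⟩ := paramsD_ok (h := h n) (Y := Y n) (w := Nat.log 2 n)
        (μ := μ n) hk (by omega) hn3 (hT0 n) hn1 hn2 rfl (by rw [hμ]) (hh1 n) (by rw [hY])
        (hh2 n) (hh3 n)
      rw [one_mul, Real.norm_of_nonneg (by positivity), Real.norm_of_nonneg (by positivity)]
      have hμ1 : 1 ≤ μ n := by rw [hμ]; exact Nat.mul_pos (by omega) (by omega)
      have hμ2 : μ n ≤ μ n * μ n := Nat.le_mul_of_pos_left _ hμ1
      have h3 : (d + 1) * μ n + ((h n + h n + (h n + h n) + 2) ^ (d + 1) * (4 * s n + 2) +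
          (4 * h n + 2 * (d + 1) + 2 * ((d + 1) * μ n) + 20)) +
          ((d + 1) * (Nat.clog 2 (h n + h n) + 1 + T' n / h n) + 1) *
            ((d + 1) * μ n + Nat.log 2 n) + (4 * p n + (4 * d + 20) * μ n + 13) ≤
          C * (μ n * μ n + Y n) + 4 * p n := by
        have h4 : (4 * d + 20) * μ n ≤ (4 * d + 20) * (μ n * μ n) := Nat.mul_le_mul_left _ hμ2
        have h5 : C * (μ n * μ n + Y n) = cst k (d + 1) * (μ n * μ n + Y n) +
          (4 * d + 20) * (μ n * μ n) + 13 * (μ n * μ n) + ((4 * d + 20) + 13) * Y n := by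
          rw [hC]; ring
        omega
      have h3' : (((d + 1) * μ n + ((h n + h n + (h n + h n) + 2) ^ (d + 1) *
          (4 * s n + 2) + (4 * h n + 2 * (d + 1) + 2 * ((d + 1) * μ n) + 20)) +
          ((d + 1) * (Nat.clog 2 (h n + h n) + 1 + T' n / h n) + 1) *
            ((d + 1) * μ n + Nat.log 2 n) + (4 * p n + (4 * d + 20) * μ n + 13) : ℕ) : ℝ) ≤
          ((C * (μ n * μ n + Y n) + 4 * p n : ℕ) : ℝ) := by exact_mod_cast h3
      have h6 : ((C * (μ n * μ n + Y n) + 4 * p n : ℕ) : ℝ) ≤ (C : ℝ) * ((κ : ℝ) ^ 2 *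
          (((Nat.log 2 n : ℝ) + 1) * ((Nat.log 2 n : ℝ) + 1)) + (Y n : ℝ)) +
          4 * ((p n : ℝ) + s n) := by
        have h7 : (μ n : ℝ) * μ n = (κ : ℝ) ^ 2 *
            (((Nat.log 2 n : ℝ) + 1) * ((Nat.log 2 n : ℝ) + 1)) := by
          have h8 : (μ n : ℝ) = ((Nat.log 2 n : ℝ) + 1) * (κ : ℝ) := by
            rw [hμ, hκ]; push_cast; ring
          rw [h8]; ring
        push_cast
        rw [h7]
        have : (0 : ℝ) ≤ s n := Nat.cast_nonneg _
        linarith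
      refine le_trans (le_of_eq ?_) (h3'.trans h6)
      push_cast
      ring)
  filter_upwards [key, ev1, ev2, eventually_ge_atTop 2] with n hn1 hn2 hn3 hn4
  intro b a q hb ha hq
  obtain ⟨h1, h2, h3, h4, h5, _⟩ := paramsD_ok (h := h n) (Y := Y n) (w := Nat.log 2 n)
    (μ := μ n) hk (by omega) hn4 (hT0 n) hn2 hn3 rfl (by rw [hμ]) (hh1 n) (by rw [hY])
    (hh2 n) (hh3 n)
  have hr0 : T' n % h n < h n := Nat.mod_lt _ (hh1 n)
  have hlog := log_numD_le (b := b) (d := d) (n := n) (T := T' n) h5 h4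
    (show T' n % h n < 2 ^ μ n by omega)
  have hn1 := hn1 _ (hlog.trans (by omega)) a q ha hq
  have hss : s n ≤ (h n + h n + (h n + h n) + 2) ^ (d + 1) * (4 * s n + 2) +
      (4 * h n + 2 * (d + 1) + 2 * ((d + 1) * μ n) + 20) := by
    have h6 : 1 * (4 * s n + 2) ≤ (h n + h n + (h n + h n) + 2) ^ (d + 1) * (4 * s n + 2) :=
      Nat.mul_le_mul_right _ (Nat.one_le_pow _ _ (by omega))
    omega
  have hout : ∀ x a : List Bool,
      (arMD f (d + 1)).out (numD (prmD b d n (μ n) (s n) (h n) (T' n % h n) (T' n)))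
        ((d + 1) * μ n) ((h n + h n + (h n + h n) + 2) ^ (d + 1) * (4 * s n + 2) +
          (4 * h n + 2 * (d + 1) + 2 * ((d + 1) * μ n) + 20))
        ((d + 1) * (Nat.clog 2 (h n + h n) + 1 + T' n / h n) + 1) x a =
      (arr d (ruleD f b) n (s n) x a (T n) 0).getD 0 false := by
    intro x a
    rw [out_arMD x a (h n) _ (hh1 n) h1 h2 le_rfl hss h3]
    rcases Nat.eq_zero_or_pos (s n) with h2 | h2
    · have e : ∀ t, (arr d (ruleD f b) n (s n) x a t 0).getD 0 false = false := by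
        intro t
        have h3 := length_arr d (ruleD f b) n (s n) x a t 0
        rw [h2] at h3
        rw [h2, List.length_eq_zero_iff.mp h3]
        rfl
      rw [e, e]
    · have h3 : T' n = T n := by rw [hT']; simp only; rw [if_neg (by omega)]
      rw [h3]
  simp only [hout] at hn1
  exact hn1

end Pool.Agent.H7QC
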