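import Pool.Agent.H7QC.LowerQ
import Pool.Agent.H7CA.AsymD

/-!
# Blocks of gates
-/

namespace Pool.Agent.H7QC

open Pool.Agent.PPS Pool.Agent.H7LS Pool.Agent.H7CA

variable {α β γ δ σ τ : Type} [Rep α] [Rep β] [Rep γ] [Rep δ] [Rep σ] [Rep τ]

/-! ### Canonical binary representations -/

/-- The word without the zeros at its end. -/
def trimW (w : List Bool) : List Bool := w.foldr (fun c y => bif c || !y.isEmpty then c :: y else []) []

theorem trimW_cons (c : Bool) (w : List Bool) :
    trimW (c :: w) = bif c || !(trimW w).isEmpty then c :: trimW w else [] := rfl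

theorem trimW_eq (w : List Bool) : trimW w = (valW w).bits := by
  induction w with
  | nil => simp [trimW, valW]
  | cons c w ih =>
    rw [trimW_cons, valW, ih]
    have h1 : c.toNat + 2 * valW w = Nat.bit c (valW w) := by
      rw [Nat.bit_val]; ring
    rw [h1]
    by_cases h2 : valW w = 0
    · rw [h2]
      cases c with
      | false => simp
      | true => simp
    · have h3 : (valW w).bits ≠ [] := by
        intro h
        apply h2
        have := valW_bits (valW w)
        rw [h] at this
        exact this.symm
      have h4 : (c || !((valW w).bits).isEmpty) = true := by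
        rw [Bool.or_eq_true]
        right
        simp [h3]
      rw [h4, cond_true, Nat.bits_append_bit _ _ (fun h => absurd h h2)]

theorem length_trimW_le (w : List Bool) : (trimW w).length ≤ w.length := by
  induction w with
  | nil => simp [trimW]
  | cons c w ih =>
    rw [trimW_cons]
    cases (c || !(trimW w).isEmpty)
    · simp
    · simp only [cond_true, List.length_cons]; omega

@[fun_prop]
theorem LT.trimW' {w : α → List Bool} (hw : LT w) : LT (fun a => trimW (w a)) := by
  obtain ⟨C, hC0, hC⟩ := hw.exists_size_le
  refine LT.foldr (ini := fun _ => ([] : List Bool))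
    (s := fun z : α × (Bool × List Bool) =>
      bif z.2.1 || !z.2.2.isEmpty then z.2.1 :: z.2.2 else []) hw (by fun_prop)
    (by fun_prop) (2 * C + 1) ?_
  intro a k
  show size (trimW ((w a).drop k)) ≤ _
  have h1 := length_trimW_le ((w a).drop k)
  have h2 := size_word_le (trimW ((w a).drop k))
  have h3 := le_size_word (w a)
  have h4 := hC a
  have h5 := size_pos a
  have h6 : ((w a).drop k).length ≤ (w a).length := by simp
  have h7 : (2 * C + 1) * size a = 2 * (C * size a) + size a := by ring
  omega

theorem trimW_inj {u v : List Bool} : trimW u = trimW v ↔ valW u = valW v := by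
  rw [trimW_eq, trimW_eq]
  constructor
  · intro h
    have h1 := valW_bits (valW u)
    rw [h, valW_bits] at h1
    exact h1.symm
  · intro h
    rw [h]

/-! ### Sources -/

/-- The new value of a source after the contents of the block `jw` has been seen. -/
def upE (fl : Bool) (η h : ℕ) (jw W X Z w : List Bool) (old : Bool) : Bool :=
  bif decide (trimW ((w.drop 2).drop η) = trimW jw) then
    (bif w.getD 0 false then
      (bif fl then W.getD (valCap h ((w.drop 2).take η)) false else old)
    else (bif fl then old else
      (bif w.getD 1 false then X else Z).getD (valCap h ((w.drop 2).take η)) false))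
  else old

@[fun_prop]
theorem LT.upE' {fl old : α → Bool} {η h : α → ℕ} {jw W X Z w : α → List Bool} (h0 : LT fl)
    (h1 : LT η) (h2 : LT h) (h3 : LT jw) (h4 : LT W) (h5 : LT X) (h6 : LT Z) (h7 : LT w)
    (h8 : LT old) :
    LT (fun a => upE (fl a) (η a) (h a) (jw a) (W a) (X a) (Z a) (w a) (old a)) := by
  unfold upE
  fun_prop

/-- The value of a source when the values `V` of the first gates of the block `jw` are
known. -/
def sv (η h : ℕ) (jw V w : List Bool) (old : Bool) : Bool :=
  bif w.getD 0 false && decide (trimW ((w.drop 2).drop η) = trimW jw) then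
    V.getD (valCap h ((w.drop 2).take η)) false else old

@[fun_prop]
theorem LT.sv' {old : α → Bool} {η h : α → ℕ} {jw V w : α → List Bool}
    (h1 : LT η) (h2 : LT h) (h3 : LT jw) (h4 : LT V) (h7 : LT w) (h8 : LT old) :
    LT (fun a => sv (η a) (h a) (jw a) (V a) (w a) (old a)) := by
  unfold sv
  fun_prop

/-- The number of a source, by block and offset. -/
theorem valW_split (η : ℕ) (u : List Bool) :
    valW u = valW (u.take η) + 2 ^ η * valW (u.drop η) := by
  induction η generalizing u with
  | zero => simp [valW]
  | succ η ih =>
    cases u with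
    | nil => simp [valW]
    | cons c u =>
      rw [List.take_succ_cons, List.drop_succ_cons, valW, valW, ih u, pow_succ]
      ring

theorem source_hit {η h : ℕ} (hh : h = 2 ^ η) (jw u : List Bool) :
    (decide (trimW (u.drop η) = trimW jw) = true ↔ valW u / h = valW jw) ∧
    valCap h (u.take η) = valW u % h := by
  have hpos : 0 < h := by rw [hh]; positivity
  have h1 := valW_split η u
  have h2 : valW (u.take η) < h := by
    refine (valW_lt _).trans_le ?_
    rw [hh]
    exact Nat.pow_le_pow_right (by omega) (by simp)
  rw [← hh] at h1
  refine ⟨?_, ?_⟩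
  · rw [decide_eq_true_iff, trimW_inj]
    have h3 : valW u / h = valW (u.drop η) := by
      rw [h1, Nat.add_mul_div_left _ _ hpos, Nat.div_eq_of_lt h2, Nat.zero_add]
    rw [h3]
  · unfold valCap
    rw [Nat.min_eq_right h2.le, h1, Nat.add_mul_mod_self_left, Nat.mod_eq_of_lt h2]

theorem getD_append_block {V W : List Bool} {h j v : ℕ} (hh : 0 < h) (hV : V.length = j * h)
    (hW : W.length ≤ h) :
    (V ++ W).getD v false = bif decide (v / h = j) then W.getD (v % h) false
      else V.getD v false := by
  have h1 := Nat.div_add_mod v h
  have h2 := Nat.mod_lt v hh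
  by_cases h3 : v / h = j
  · rw [decide_eq_true h3, cond_true]
    rw [h3, Nat.mul_comm] at h1
    rw [List.getD_eq_getElem?_getD, List.getElem?_append_right (by omega),
      List.getD_eq_getElem?_getD]
    congr 2
    omega
  · rw [decide_eq_false h3, cond_false]
    rcases Nat.lt_or_ge v (j * h) with h4 | h4
    · rw [List.getD_eq_getElem?_getD, List.getElem?_append_left (by omega),
        List.getD_eq_getElem?_getD]
    · have h5 : (j + 1) * h ≤ v := by
        rw [← Nat.le_div_iff_mul_le hh]
        have h6 : j ≤ v / h := by rwa [Nat.le_div_iff_mul_le hh]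
        omega
      have h6 : (j + 1) * h = j * h + h := by ring
      rw [List.getD_eq_getElem?_getD, List.getD_eq_getElem?_getD,
        List.getElem?_eq_none (by rw [List.length_append]; omega),
        List.getElem?_eq_none (by omega)]

theorem getD_take_block {x X : List Bool} {h j v : ℕ} (hh : 0 < h)
    (hX : ∀ e < h, X.getD e false = x.getD (j * h + e) false) :
    (x.take ((j + 1) * h)).getD v false = bif decide (v / h = j) then X.getD (v % h) false
      else (x.take (j * h)).getD v false := by
  have h1 := Nat.div_add_mod v h
  have h2 := Nat.mod_lt v hh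
  have h6 : (j + 1) * h = j * h + h := by ring
  have key : ∀ N, (x.take N).getD v false = if v < N then x.getD v false else false := by
    intro N
    rw [List.getD_eq_getElem?_getD, List.getElem?_take]
    split_ifs with h7
    · rw [List.getD_eq_getElem?_getD]
    · rfl
  rw [key, key]
  by_cases h3 : v / h = j
  · rw [decide_eq_true h3, cond_true, hX _ h2]
    rw [h3, Nat.mul_comm] at h1
    rw [if_pos (by omega), h1]
  · rw [decide_eq_false h3, cond_false]
    by_cases h4 : v < j * h
    · rw [if_pos h4, if_pos (by omega)]
    · have h5 : (j + 1) * h ≤ v := by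
        rw [← Nat.le_div_iff_mul_le hh]
        have h6 : j ≤ v / h := by rw [Nat.le_div_iff_mul_le hh]; omega
        omega
      rw [if_neg h4, if_neg (by omega)]

/-- Reading a block of the inputs. -/
theorem upE_false {η h j : ℕ} (hh : h = 2 ^ η) {jw x z X Z : List Bool} (hj : valW jw = j)
    (hX : ∀ e < h, X.getD e false = x.getD (j * h + e) false)
    (hZ : ∀ e < h, Z.getD e false = z.getD (j * h + e) false) (W w : List Bool) :
    upE false η h jw W X Z w (src [] (x.take (j * h)) (z.take (j * h)) w) =
      src [] (x.take ((j + 1) * h)) (z.take ((j + 1) * h)) w := by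
  have hpos : 0 < h := by rw [hh]; positivity
  obtain ⟨h1, h2⟩ := source_hit hh jw (w.drop 2)
  rw [hj] at h1
  have h3 : decide (trimW ((w.drop 2).drop η) = trimW jw) =
      decide (valW (w.drop 2) / h = j) := by
    rw [Bool.eq_iff_iff, h1, decide_eq_true_iff]
  unfold upE
  rw [h3, h2]
  unfold src
  rw [getD_take_block hpos hX, getD_take_block hpos hZ]
  cases w.getD 0 false <;> cases w.getD 1 false <;>
    cases decide (valW (w.drop 2) / h = j) <;> simp

/-- Reading a block of gates. -/
theorem upE_true {η h j : ℕ} (hh : h = 2 ^ η) {jw V W : List Bool} (hj : valW jw = j)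
    (hV : V.length = j * h) (hW : W.length ≤ h) (X Z x z w : List Bool) :
    upE true η h jw W X Z w (src V x z w) = src (V ++ W) x z w := by
  have hpos : 0 < h := by rw [hh]; positivity
  obtain ⟨h1, h2⟩ := source_hit hh jw (w.drop 2)
  rw [hj] at h1
  have h3 : decide (trimW ((w.drop 2).drop η) = trimW jw) =
      decide (valW (w.drop 2) / h = j) := by
    rw [Bool.eq_iff_iff, h1, decide_eq_true_iff]
  unfold upE
  rw [h3, h2]
  unfold src
  rw [getD_append_block hpos hV hW]
  cases w.getD 0 false <;> cases w.getD 1 false <;>
    cases decide (valW (w.drop 2) / h = j) <;> simp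

/-- The sources of the gates of the block. -/
theorem sv_eq {η h j : ℕ} (hh : h = 2 ^ η) {jw V W : List Bool} (hj : valW jw = j)
    (hV : V.length = j * h) (hW : W.length ≤ h) (x z w : List Bool) :
    sv η h jw W w (src V x z w) = src (V ++ W) x z w := by
  have hpos : 0 < h := by rw [hh]; positivity
  obtain ⟨h1, h2⟩ := source_hit hh jw (w.drop 2)
  rw [hj] at h1
  have h3 : decide (trimW ((w.drop 2).drop η) = trimW jw) =
      decide (valW (w.drop 2) / h = j) := by
    rw [Bool.eq_iff_iff, h1, decide_eq_true_iff]
  unfold sv
  rw [h3, h2]
  unfold src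
  rw [getD_append_block hpos hV hW]
  cases w.getD 0 false <;> cases w.getD 1 false <;>
    cases decide (valW (w.drop 2) / h = j) <;> simp

end Pool.Agent.H7QC
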