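import Pool.Agent.H7QC.CircM

/-!
# Circuits with counting quantifiers against polynomial space
-/

namespace Pool.Agent.H7QC

open Pool.Agent.PPS Pool.Agent.H7LS Pool.Agent.H7CA Filter Asymptotics

theorem quant_congr (q : List (ℕ × ℕ)) : ∀ F F' : List Bool → Bool,
    (∀ y, y.length = (q.map Prod.fst).sum → F y = F' y) → quant q F = quant q F' := by
  induction q with
  | nil => intro F F' h; exact h [] rfl
  | cons r q ih =>
    intro F F' h
    obtain ⟨b, τ⟩ := r
    rw [quant, quant]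
    have e : {y : List Bool | y.length = b ∧ quant q (fun z => F (y ++ z)) = true} =
        {y : List Bool | y.length = b ∧ quant q (fun z => F' (y ++ z)) = true} := by
      ext y
      simp only [Set.mem_setOf_eq]
      refine and_congr_right (fun hy => ?_)
      rw [ih _ _ (fun z hz => h (y ++ z) (by
        rw [List.length_append, hy, hz, List.map_cons, List.sum_cons]))]
    rw [e]

section

variable {f₀ f₁ f₂ : List Bool → List Bool} {m η h J G : ℕ} {b x z : List Bool}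

theorem wires_add (b x z : List Bool) (S d : ℕ) : ∃ W,
    wires f₀ f₁ f₂ b x z (S + d) = wires f₀ f₁ f₂ b x z S ++ W := by
  induction d with
  | zero => exact ⟨[], by simp⟩
  | succ d ih =>
    obtain ⟨W, hW⟩ := ih
    refine ⟨W ++ [gate (f₀ (blk b ++ (S + d).bits))
      (src (wires f₀ f₁ f₂ b x z (S + d)) x z (f₁ (blk b ++ (S + d).bits)))
      (src (wires f₀ f₁ f₂ b x z (S + d)) x z (f₂ (blk b ++ (S + d).bits)))], ?_⟩
    have e : S + (d + 1) = (S + d) + 1 := by ring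
    rw [e, wires, ← List.append_assoc, ← hW]

theorem wires_getD {S S' v : ℕ} (hS : S ≤ S') (hv : v < S) (b x z : List Bool) :
    (wires f₀ f₁ f₂ b x z S').getD v false = (wires f₀ f₁ f₂ b x z S).getD v false := by
  obtain ⟨d, rfl⟩ := Nat.exists_eq_add_of_le hS
  obtain ⟨W, hW⟩ := wires_add (f₀ := f₀) (f₁ := f₁) (f₂ := f₂) b x z S d
  have hl : (wires f₀ f₁ f₂ b x z S).length = S := length_wires b x z S
  rw [hW, List.getD_eq_getElem?_getD, List.getElem?_append_left (by omega),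
    List.getD_eq_getElem?_getD]

/-- The offset of the last gate. -/
def ofs (S h : ℕ) : ℕ := if S = 0 then h else (S - 1) % h

/-- The answer of the machine. -/
theorem out_cmM (hh : h = 2 ^ η) (hη : η ≤ m) (hx : x.length ≤ J * h)
    (hz : z.length ≤ J * h) (hJ : J * h ≤ 2 ^ m) {S : ℕ} (hG : G = (S - 1) / h + 1)
    (hG2 : G ≤ 2 ^ m) {s : ℕ} (hs : 2 * (η + J + G) + 16 * h + 20 ≤ s) :
    (cmM f₀ f₁ f₂).out (numC (b, (η, (h, (J, ofs S h))))) m s (η + J + G + 1) x z =
      outC f₀ f₁ f₂ b x z S := by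
  have hpos : 0 < h := by rw [hh]; positivity
  have hG1 : 1 ≤ G := by rw [hG]; exact Nat.le_add_left _ _
  obtain ⟨ans, h1, h2⟩ := mem_cmM (f₀ := f₀) (f₁ := f₁) (f₂ := f₂) (b := b) hh hη hx hz hJ
    hG2 (ofs S h) hs (η + J + G) le_rfl 0 (by positivity)
  obtain ⟨W, w1, w2, w3⟩ := h2 (by omega)
  have e1 : η + J + G - (η + J) = G := by omega
  have e2 : η + J + G - 1 - (η + J) = G - 1 := by omega
  rw [e1, e2] at w2
  unfold PMach.out
  rw [← wordN_zero, h1, encC_getD_zero]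
  simp only
  rw [w3]
  unfold ofs outC
  by_cases hS : S = 0
  · rw [if_pos hS, hS, List.getD_eq_getElem?_getD, List.getElem?_eq_none (by omega)]
    rfl
  · rw [if_neg hS]
    have h3 := Nat.div_add_mod (S - 1) h
    have h4 := Nat.mod_lt (S - 1) hpos
    have h5 : G * h = (G - 1) * h + h := by
      rw [hG, Nat.add_sub_cancel]; ring
    have h6 : (G - 1) * h = h * ((S - 1) / h) := by
      rw [hG, Nat.add_sub_cancel]; ring
    have h7 : (wires f₀ f₁ f₂ b x z (G * h)).getD (S - 1) false =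
        (wires f₀ f₁ f₂ b x z S).getD (S - 1) false :=
      wires_getD (by omega) (by omega) b x z
    rw [← h7, w2]
    have hl : (wires f₀ f₁ f₂ b x z ((G - 1) * h)).length = (G - 1) * h := length_wires b x z _
    rw [List.getD_eq_getElem?_getD, List.getD_eq_getElem?_getD,
      List.getElem?_append_right (by omega)]
    congr 2
    omega

end

/-! ### The choice of the parameters -/

/-- The length of the names of the processors. -/
def mC (k K w : ℕ) : ℕ := (w + 1) * (2 * k + 1) + (2 * K + 6)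

theorem exists_paramsC {k n S : ℕ} (K : ℕ) (hk : 1 ≤ k) (hn : 2 ≤ n) (hS : S ≤ n ^ (2 * k)) :
    ∃ η h J G : ℕ, h = 2 ^ η ∧ G = (S - 1) / h + 1 ∧
      (2 * K + 1) * n ^ k ≤ J * h ∧ J * h ≤ 2 ^ mC k K (Nat.log 2 n) ∧
      G ≤ 2 ^ mC k K (Nat.log 2 n) ∧ η ≤ mC k K (Nat.log 2 n) ∧
      h * h ≤ 4 * ((S + (2 * K + 1) * n ^ k) * Nat.log 2 n) ∧
      (J + G) * Nat.log 2 n ≤ h + 2 * Nat.log 2 n ∧ J + G ≤ h + 2 := by
  classical
  obtain ⟨w, hw⟩ : ∃ w, w = Nat.log 2 n := ⟨_, rfl⟩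
  obtain ⟨I, hI⟩ : ∃ I, I = (2 * K + 1) * n ^ k := ⟨_, rfl⟩
  rw [← hw, ← hI]
  have hw1 : 1 ≤ w := by rw [hw]; exact Nat.log_pos (by omega) hn
  have hnw : n < 2 ^ (w + 1) := by rw [hw]; exact Nat.lt_pow_succ_log_self (by omega) n
  have hwn : w ≤ n := by rw [hw]; exact Nat.log_le_self 2 n
  have hn1 : 1 ≤ n ^ k := Nat.one_le_pow _ _ (by omega)
  have hI1 : 1 ≤ I := by rw [hI]; exact Nat.mul_pos (by omega) (by omega)
  obtain ⟨A, hA⟩ : ∃ A, A = (S + I) * w := ⟨_, rfl⟩
  have hA1 : 1 ≤ A := by rw [hA]; exact Nat.mul_pos (by omega) (by omega)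
  have hex : ∃ η : ℕ, A ≤ 2 ^ η * 2 ^ η := by
    refine ⟨A, ?_⟩
    calc A ≤ 2 ^ A := A.lt_two_pow_self.le
      _ ≤ 2 ^ A * 2 ^ A := Nat.le_mul_of_pos_left _ (by positivity)
  obtain ⟨η, hη⟩ : ∃ η, η = Nat.find hex := ⟨_, rfl⟩
  have hspec : A ≤ 2 ^ η * 2 ^ η := by rw [hη]; exact Nat.find_spec hex
  have hmin : ∀ g, g < η → ¬ (A ≤ 2 ^ g * 2 ^ g) := by
    intro g hg; exact Nat.find_min hex (by rw [← hη]; exact hg)
  obtain ⟨h, hh⟩ : ∃ h, h = 2 ^ η := ⟨_, rfl⟩
  have hpos : 0 < h := by rw [hh]; positivity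
  have hA4 : h * h ≤ 4 * A := by
    rcases Nat.eq_zero_or_pos η with h0 | h0
    · rw [hh, h0]; omega
    · have h1 := hmin (η - 1) (by omega)
      have e : 2 ^ η = 2 * 2 ^ (η - 1) := by
        rw [← pow_succ']; congr 1; omega
      rw [hh, e]
      have e2 : 2 * 2 ^ (η - 1) * (2 * 2 ^ (η - 1)) = 4 * (2 ^ (η - 1) * 2 ^ (η - 1)) := by ring
      rw [e2]
      omega
  have hhA : h ≤ 2 * A := by
    rcases Nat.lt_or_ge h 2 with h0 | h0
    · omega
    · have : 2 * h ≤ h * h := Nat.mul_le_mul_right _ h0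
      omega
  obtain ⟨J, hJ⟩ : ∃ J, J = I / h + 1 := ⟨_, rfl⟩
  obtain ⟨G, hG⟩ : ∃ G, G = (S - 1) / h + 1 := ⟨_, rfl⟩
  have hJ1 : I ≤ J * h := by
    have h1 := Nat.div_add_mod I h
    have h2 := Nat.mod_lt I hpos
    rw [hJ, Nat.add_mul, Nat.one_mul, Nat.mul_comm (I / h)]
    omega
  have hJ2 : J * h ≤ I + h := by
    rw [hJ, Nat.add_mul, Nat.one_mul]
    have := Nat.div_mul_le_self I h
    omega
  have hG2 : G ≤ S + 1 := by
    rw [hG]
    have := Nat.div_le_self (S - 1) h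
    omega
  -- the size of the names
  have hbig : 4 * A + 2 ≤ 2 ^ mC k K w := by
    have h1 : n ^ k ≤ n ^ (2 * k) := Nat.pow_le_pow_right (by omega) (by omega)
    have h2 : S + I ≤ (2 * K + 2) * n ^ (2 * k) := by
      have : (2 * K + 2) * n ^ (2 * k) = (2 * K + 1) * n ^ (2 * k) + n ^ (2 * k) := by ring
      have h3 : I ≤ (2 * K + 1) * n ^ (2 * k) := by rw [hI]; exact Nat.mul_le_mul_left _ h1
      omega
    have h3 : A ≤ (2 * K + 2) * n ^ (2 * k) * n := by
      rw [hA]; exact Nat.mul_le_mul h2 hwn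
    have h4 : (2 * K + 2) * n ^ (2 * k) * n = (2 * K + 2) * n ^ (2 * k + 1) := by ring
    have h5 : n ^ (2 * k + 1) ≤ 2 ^ ((w + 1) * (2 * k + 1)) := by
      rw [pow_mul]; exact Nat.pow_le_pow_left hnw.le _
    have h6 : 2 * K + 2 < 2 ^ (2 * K + 2) := (2 * K + 2).lt_two_pow_self
    have h7 : A ≤ 2 ^ (2 * K + 2) * 2 ^ ((w + 1) * (2 * k + 1)) := by
      rw [h4] at h3
      exact h3.trans (Nat.mul_le_mul h6.le h5)
    have h8 : 2 ^ mC k K w = 16 * (2 ^ (2 * K + 2) * 2 ^ ((w + 1) * (2 * k + 1))) := by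
      unfold mC
      rw [pow_add, show 2 * K + 6 = (2 * K + 2) + 4 by ring, pow_add 2 (2 * K + 2) 4]
      ring
    rw [h8]
    omega
  have hSA : S + I ≤ A := by rw [hA]; exact Nat.le_mul_of_pos_right _ hw1
  have hηm : η ≤ mC k K w := by
    have h1 : 2 ^ η ≤ 2 ^ mC k K w := by rw [← hh]; omega
    exact (Nat.pow_le_pow_iff_right (by omega)).mp h1
  have hJG : (J + G) * w ≤ h + 2 * w := by
    have h1 : (I / h + (S - 1) / h) * w * h ≤ h * h := by
      have h2 := Nat.div_mul_le_self I h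
      have h3 := Nat.div_mul_le_self (S - 1) h
      calc (I / h + (S - 1) / h) * w * h = (I / h * h + (S - 1) / h * h) * w := by ring
        _ ≤ (S + I) * w := Nat.mul_le_mul_right _ (by omega)
        _ = A := hA.symm
        _ ≤ h * h := by rw [hh]; exact hspec
    have h4 : (I / h + (S - 1) / h) * w ≤ h := Nat.le_of_mul_le_mul_right h1 hpos
    have h5 : (J + G) * w = (I / h + (S - 1) / h) * w + 2 * w := by rw [hJ, hG]; ring
    omega
  have hJG2 : J + G ≤ h + 2 := by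
    have h1 : (I / h + (S - 1) / h) * w ≤ h := by
      have h5 : (J + G) * w = (I / h + (S - 1) / h) * w + 2 * w := by rw [hJ, hG]; ring
      omega
    have h2 : I / h + (S - 1) / h ≤ (I / h + (S - 1) / h) * w := Nat.le_mul_of_pos_right _ hw1
    omega
  refine ⟨η, h, J, G, hh, hG, hJ1, by omega, by omega, hηm, ?_, hJG, hJG2⟩
  rw [hA] at hA4
  exact hA4

theorem log_numC_le {b : List Bool} {η h J o : ℕ} :
    Nat.log 2 (numC (b, (η, (h, (J, o))))) ≤
      4 * b.length + 2 * η + 2 * h + 2 * J + 2 * o + 9 := by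
  obtain ⟨P, hP⟩ : ∃ P : PC, P = (b, (η, (h, (J, o)))) := ⟨_, rfl⟩
  rw [← hP]
  have hsz : size P ≤ 4 * b.length + 2 * η + 2 * h + 2 * J + 2 * o + 9 := by
    rw [hP]
    simp only [size_pair, size_nat]
    have e1 := size_word_le b
    omega
  refine le_trans ?_ hsz
  have hlt : numC P < 2 ^ (size P + 1) := by
    have h := valW_lt (code P ++ [true])
    have h2 : (code P ++ [true]).length = size P + 1 := by
      rw [List.length_append]; rfl
    rw [h2] at h
    exact h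
  have hne : numC P ≠ 0 := by
    intro h0
    have h1 := bits_valW (code P)
    have h2 : valW (code P ++ [true]) = 0 := h0
    rw [h2] at h1
    simp at h1
  have := (Nat.log_lt_iff_lt_pow (by omega) hne).mpr hlt
  omega

/-- Hard languages are hard for succinct circuits with counting quantifiers. -/
theorem circuits_of_hardQ {k K : ℕ} {c : ℝ} {L : Set (List Bool)} (hk : 1 ≤ k)
    (hlow : HardQ k K c L) : ∀ f₀ ∈ FLIN, ∀ f₁ ∈ FLIN, ∀ f₂ ∈ FLIN, ∀ p S : ℕ → ℕ,
      (fun n : ℕ => (p n : ℝ)) =o[atTop] (fun n : ℕ => (n : ℝ) ^ k) →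
      (fun n : ℕ => (S n : ℝ) * Nat.log 2 n) =o[atTop] (fun n : ℕ => (n : ℝ) ^ (2 * k)) →
      ∀ᶠ n : ℕ in atTop, ∀ (b a : List Bool) (q : List (ℕ × ℕ)), b.length ≤ p n →
        a.length ≤ K * n ^ k → (q.map (fun r => r.1 + 1)).sum ≤ K * n ^ k →
        |({x : List Bool | x.length = n ∧
            (quant q (fun y => outC f₀ f₁ f₂ b x (y ++ a) (S n)) = true ↔ x ∈ L)}.ncard : ℝ) /
            2 ^ n - 1 / 2| ≤ 2 ^ (-(c * n)) := by
  classical
  intro f₀ hf₀ f₁ hf₁ f₂ hf₂ p S ho0 ho2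
  have hpow : (fun n : ℕ => (n : ℝ)) =O[atTop] (fun n : ℕ => (n : ℝ) ^ k) := by
    refine IsBigO.of_bound 1 ?_
    filter_upwards [eventually_ge_atTop 1] with n hn
    rw [one_mul, Real.norm_of_nonneg (by positivity), Real.norm_of_nonneg (by positivity)]
    have := le_pow_self' n hk
    exact_mod_cast this
  -- the parameters
  have hpar : ∀ n, ∃ P : ℕ × ℕ × ℕ × ℕ, 2 ≤ n → S n ≤ n ^ (2 * k) →
      P.2.1 = 2 ^ P.1 ∧ P.2.2.2 = (S n - 1) / P.2.1 + 1 ∧
      (2 * K + 1) * n ^ k ≤ P.2.2.1 * P.2.1 ∧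
      P.2.2.1 * P.2.1 ≤ 2 ^ mC k K (Nat.log 2 n) ∧
      P.2.2.2 ≤ 2 ^ mC k K (Nat.log 2 n) ∧ P.1 ≤ mC k K (Nat.log 2 n) ∧
      P.2.1 * P.2.1 ≤ 4 * ((S n + (2 * K + 1) * n ^ k) * Nat.log 2 n) ∧
      (P.2.2.1 + P.2.2.2) * Nat.log 2 n ≤ P.2.1 + 2 * Nat.log 2 n ∧
      P.2.2.1 + P.2.2.2 ≤ P.2.1 + 2 := by
    intro n
    by_cases h1 : 2 ≤ n
    · by_cases h2 : S n ≤ n ^ (2 * k)
      · obtain ⟨η, h, J, G, h3⟩ := exists_paramsC K hk h1 h2
        exact ⟨(η, h, J, G), fun _ _ => h3⟩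
      · exact ⟨(0, 0, 0, 0), fun _ h => absurd h h2⟩
    · exact ⟨(0, 0, 0, 0), fun h => absurd h h1⟩
  choose P hP using hpar
  obtain ⟨η, hη⟩ : ∃ η : ℕ → ℕ, η = fun n => (P n).1 := ⟨_, rfl⟩
  obtain ⟨h, hh⟩ : ∃ h : ℕ → ℕ, h = fun n => (P n).2.1 := ⟨_, rfl⟩
  obtain ⟨J, hJ⟩ : ∃ J : ℕ → ℕ, J = fun n => (P n).2.2.1 := ⟨_, rfl⟩
  obtain ⟨G, hG⟩ : ∃ G : ℕ → ℕ, G = fun n => (P n).2.2.2 := ⟨_, rfl⟩
  have hP' : ∀ n, 2 ≤ n → S n ≤ n ^ (2 * k) → h n = 2 ^ η n ∧ G n = (S n - 1) / h n + 1 ∧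
      (2 * K + 1) * n ^ k ≤ J n * h n ∧ J n * h n ≤ 2 ^ mC k K (Nat.log 2 n) ∧
      G n ≤ 2 ^ mC k K (Nat.log 2 n) ∧ η n ≤ mC k K (Nat.log 2 n) ∧
      h n * h n ≤ 4 * ((S n + (2 * K + 1) * n ^ k) * Nat.log 2 n) ∧
      (J n + G n) * Nat.log 2 n ≤ h n + 2 * Nat.log 2 n ∧ J n + G n ≤ h n + 2 := by
    intro n h1 h2
    rw [hη, hh, hJ, hG]
    exact hP n h1 h2
  have ev1 : ∀ᶠ n : ℕ in atTop, S n ≤ n ^ (2 * k) := by
    filter_upwards [ho2.bound (show (0 : ℝ) < 1 by norm_num), eventually_ge_atTop 2]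
      with n hn hn2
    rw [Real.norm_of_nonneg (by positivity), Real.norm_of_nonneg (by positivity),
      one_mul] at hn
    have h1 : S n * Nat.log 2 n ≤ n ^ (2 * k) := by exact_mod_cast hn
    have h2 : 1 ≤ Nat.log 2 n := Nat.log_pos (by omega) hn2
    exact (Nat.le_mul_of_pos_right _ h2).trans h1
  -- the size of the blocks
  have hIo : (fun n : ℕ => (S n : ℝ) * Nat.log 2 n + (2 * K + 1) * ((n : ℝ) ^ k *
      Nat.log 2 n)) =o[atTop] (fun n : ℕ => (n : ℝ) ^ (2 * k)) := by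
    refine ho2.add (IsLittleO.const_mul_left ?_ _)
    have h1 := (isBigO_refl (fun n : ℕ => (n : ℝ) ^ k) atTop).mul_isLittleO
      (log_isLittleO.trans_isBigO hpow)
    refine h1.congr_right (fun n => ?_)
    rw [← pow_add]
    congr 1
    ring
  have hho : (fun n : ℕ => (h n : ℝ)) =o[atTop] (fun n : ℕ => (n : ℝ) ^ k) := by
    rw [isLittleO_iff]
    intro ε hε
    filter_upwards [hIo.bound (show 0 < ε ^ 2 / 4 by positivity), ev1,
      eventually_ge_atTop 2] with n hn hn1 hn2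
    obtain ⟨_, _, _, _, _, _, h7, _, _⟩ := hP' n hn2 hn1
    rw [Real.norm_of_nonneg (by positivity), Real.norm_of_nonneg (by positivity)] at hn ⊢
    refine le_of_pow_le_pow_left₀ (n := 2) (by omega) (by positivity) ?_
    have h8 : (h n : ℝ) * h n ≤ 4 * ((S n + (2 * K + 1) * (n : ℝ) ^ k) * Nat.log 2 n) := by
      exact_mod_cast h7
    have e : (ε * (n : ℝ) ^ k) ^ 2 = 4 * (ε ^ 2 / 4 * (n : ℝ) ^ (2 * k)) := by
      rw [mul_pow, ← pow_mul, Nat.mul_comm k 2]; ring
    rw [e, sq]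
    refine h8.trans ?_
    have e2 : ((S n : ℝ) + (2 * K + 1) * (n : ℝ) ^ k) * Nat.log 2 n =
        (S n : ℝ) * Nat.log 2 n + (2 * K + 1) * ((n : ℝ) ^ k * Nat.log 2 n) := by ring
    rw [e2]
    linarith
  obtain ⟨C, hC⟩ : ∃ C : ℕ, C = (2 * k + 1) + (2 * K + 6) := ⟨_, rfl⟩
  have hmC : ∀ w, mC k K w ≤ C * (w + 1) := by
    intro w
    unfold mC
    have h1 : 2 * K + 6 ≤ (2 * K + 6) * (w + 1) := Nat.le_mul_of_pos_right _ (by omega)
    have h2 : C * (w + 1) = (w + 1) * (2 * k + 1) + (2 * K + 6) * (w + 1) := by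
      rw [hC]; ring
    omega
  have hsum : (fun n : ℕ => ((20 * C + 30) * (C + 1) : ℝ) *
      (((Nat.log 2 n : ℝ) + 1) * ((Nat.log 2 n : ℝ) + 1)) + ((20 * C + 40 : ℝ)) * (h n : ℝ) +
      4 * (p n : ℝ)) =o[atTop] (fun n : ℕ => (n : ℝ) ^ k) :=
    (((sq_log_isLittleO.trans_isBigO hpow).const_mul_left _).add
      (hho.const_mul_left _)).add (ho0.const_mul_left _)
  have key := hlow (cmM f₀ f₁ f₂) (cmM_addr_mem f₀ f₁ f₂) (cmM_upd_mem hf₀ hf₁ hf₂)
    (fun n => mC k K (Nat.log 2 n))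
    (fun n => 2 * (η n + J n + G n) + 16 * h n + 20)
    (fun n => η n + J n + G n + 1)
    (fun n => 4 * p n + 2 * η n + 4 * h n + 2 * J n + 9) (by
      refine IsBigO.trans_isLittleO (IsBigO.of_bound 1 ?_) hsum
      filter_upwards [ev1, eventually_ge_atTop 2] with n hn1 hn2
      obtain ⟨_, _, _, _, _, h6, _, h8, h9⟩ := hP' n hn2 hn1
      rw [one_mul, Real.norm_of_nonneg (by positivity), Real.norm_of_nonneg (by positivity)]
      obtain ⟨w, hw⟩ : ∃ w, w = Nat.log 2 n := ⟨_, rfl⟩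
      rw [← hw] at h6 h8 ⊢
      have hw1 : 1 ≤ w := by rw [hw]; exact Nat.log_pos (by omega) hn2
      have h10 := hmC w
      obtain ⟨D, hD⟩ : ∃ D, D = C * (w + 1) := ⟨_, rfl⟩
      rw [← hD] at h10
      have h11 : mC k K w + (2 * (η n + J n + G n) + 16 * h n + 20) +
          (η n + J n + G n + 1) * (mC k K w + w) +
          (4 * p n + 2 * η n + 4 * h n + 2 * J n + 9) ≤
          (20 * C + 30) * (C + 1) * ((w + 1) * (w + 1)) + (20 * C + 40) * h n + 4 * p n := by
        have g1 : (η n + J n + G n + 1) * (mC k K w + w) ≤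
            (D + 1) * (D + w) + (J n + G n) * (D + w) := by
          calc (η n + J n + G n + 1) * (mC k K w + w) ≤ (D + J n + G n + 1) * (D + w) :=
                Nat.mul_le_mul (by omega) (by omega)
            _ = _ := by ring
        have g2 : D + w ≤ (C + 1) * (w + 1) := by
          have : (C + 1) * (w + 1) = D + w + 1 := by rw [hD]; ring
          omega
        have g3 : (J n + G n) * (D + w) ≤ (C + 1) * (2 * (h n + 2 * w)) := by
          calc (J n + G n) * (D + w) ≤ (J n + G n) * ((C + 1) * (w + 1)) :=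
                Nat.mul_le_mul_left _ g2
            _ ≤ (J n + G n) * ((C + 1) * (2 * w)) :=
                Nat.mul_le_mul_left _ (Nat.mul_le_mul_left _ (by omega))
            _ = (C + 1) * (2 * ((J n + G n) * w)) := by ring
            _ ≤ _ := Nat.mul_le_mul_left _ (Nat.mul_le_mul_left _ h8)
        have g4 : (D + 1) * (D + w) ≤ (C + 1) * (w + 1) * ((C + 1) * (w + 1)) :=
          Nat.mul_le_mul (by
            have : (C + 1) * (w + 1) = D + w + 1 := by rw [hD]; ring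
            omega) g2
        have g5 : D ≤ C * ((w + 1) * (w + 1)) := by
          rw [hD]; exact Nat.mul_le_mul_left _ (Nat.le_mul_of_pos_left _ (by omega))
        have g6 : w ≤ (w + 1) * (w + 1) :=
          (Nat.le_succ w).trans (Nat.le_mul_of_pos_left _ (by omega))
        obtain ⟨W, hW⟩ : ∃ W, W = (w + 1) * (w + 1) := ⟨_, rfl⟩
        rw [← hW] at g5 g6 ⊢
        have hW1 : 1 ≤ W := by rw [hW]; exact Nat.mul_pos (by omega) (by omega)
        have g7 : (C + 1) * (w + 1) * ((C + 1) * (w + 1)) = (C + 1) * (C + 1) * W := by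
          rw [hW]; ring
        have g8 : (C + 1) * (2 * (h n + 2 * w)) ≤ (2 * C + 2) * h n + (4 * C + 4) * W := by
          have : (C + 1) * (2 * (h n + 2 * w)) = (2 * C + 2) * h n + (4 * C + 4) * w := by ring
          have h12 : (4 * C + 4) * w ≤ (4 * C + 4) * W := Nat.mul_le_mul_left _ g6
          omega
        have g9 : (20 * C + 30) * (C + 1) * W = (C + 1) * (C + 1) * W + (4 * C + 4) * W +
            (19 * (C * C * W) + 44 * (C * W) + 25 * W) := by ring
        have g10 : (20 * C + 40) * h n = (2 * C + 2) * h n + (18 * (C * h n) + 38 * h n) := by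
          ring
        rw [g9, g10]
        have g11 : W ≤ C * W := Nat.le_mul_of_pos_left _ (by omega)
        generalize (J n + G n) * (D + w) = a1 at g1 g3
        generalize (D + 1) * (D + w) = a2 at g1 g4
        generalize (η n + J n + G n + 1) * (mC k K w + w) = a3 at g1 ⊢
        omega
      have h12 : ((mC k K w + (2 * (η n + J n + G n) + 16 * h n + 20) +
          (η n + J n + G n + 1) * (mC k K w + w) +
          (4 * p n + 2 * η n + 4 * h n + 2 * J n + 9) : ℕ) : ℝ) ≤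
          (((20 * C + 30) * (C + 1) * ((w + 1) * (w + 1)) + (20 * C + 40) * h n +
            4 * p n : ℕ) : ℝ) := by exact_mod_cast h11
      push_cast at h12 ⊢
      exact h12)
  filter_upwards [key, ev1, eventually_ge_atTop 2] with n hn hn1 hn2
  intro b a q hb ha hq
  obtain ⟨h1, h2, h3, h4, h5, h6, _, _, _⟩ := hP' n hn2 hn1
  have hpos : 0 < h n := by rw [h1]; positivity
  have hofs : ofs (S n) (h n) ≤ h n := by
    unfold ofs
    split_ifs
    · exact le_rfl
    · exact (Nat.mod_lt _ hpos).le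
  have hlog := log_numC_le (b := b) (η := η n) (h := h n) (J := J n) (o := ofs (S n) (h n))
  have hn := hn _ (hlog.trans (by omega)) a q ha hq
  have hsetq : ∀ x : List Bool, x.length = n →
      quant q (fun y => (cmM f₀ f₁ f₂).out
        (numC (b, (η n, (h n, (J n, ofs (S n) (h n)))))) (mC k K (Nat.log 2 n))
        (2 * (η n + J n + G n) + 16 * h n + 20) (η n + J n + G n + 1) x (y ++ a)) =
      quant q (fun y => outC f₀ f₁ f₂ b x (y ++ a) (S n)) := by
    intro x hx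
    refine quant_congr q _ _ (fun y hy => ?_)
    have hy2 : y.length ≤ K * n ^ k := by
      refine le_trans ?_ hq
      rw [hy]
      have : ∀ q : List (ℕ × ℕ), (q.map Prod.fst).sum ≤ (q.map (fun r => r.1 + 1)).sum := by
        intro q
        induction q with
        | nil => simp
        | cons r q ih =>
          rw [List.map_cons, List.sum_cons, List.map_cons, List.sum_cons]
          omega
      exact this q
    have hnk : n ≤ n ^ k := Nat.le_self_pow (by omega) n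
    have e1 : (2 * K + 1) * n ^ k = K * n ^ k + K * n ^ k + n ^ k := by ring
    refine out_cmM h1 h6 ?_ ?_ h4 h2 h5 le_rfl
    · rw [hx]; omega
    · rw [List.length_append]; omega
  have hset : {x : List Bool | x.length = n ∧
      (quant q (fun y => (cmM f₀ f₁ f₂).out
        (numC (b, (η n, (h n, (J n, ofs (S n) (h n)))))) (mC k K (Nat.log 2 n))
        (2 * (η n + J n + G n) + 16 * h n + 20) (η n + J n + G n + 1) x (y ++ a)) = true ↔
          x ∈ L)} =
      {x : List Bool | x.length = n ∧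
        (quant q (fun y => outC f₀ f₁ f₂ b x (y ++ a) (S n)) = true ↔ x ∈ L)} := by
    ext x
    simp only [Set.mem_setOf_eq]
    refine and_congr_right (fun hx => ?_)
    rw [hsetq x hx]
  rw [hset] at hn
  exact hn

end Pool.Agent.H7QC
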