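import Pool.Agent.H7QC.Circ

/-!
# The contents of a block of gates
-/

namespace Pool.Agent.H7QC

open Pool.Agent.PPS Pool.Agent.H7LS Pool.Agent.H7CA

variable {α β γ δ σ τ : Type} [Rep α] [Rep β] [Rep γ] [Rep δ] [Rep σ] [Rep τ]

section defs

variable (f₀ f₁ f₂ : List Bool → List Bool)

/-- One step of the update of a block. -/
def fillStep (fl : Bool) (η h : ℕ) (b jw W X Z : List Bool)
    (y : List Bool × List (Bool × Bool)) (p : Bool × Bool) : List Bool × List (Bool × Bool) :=
  (incW y.1, (upE fl η h jw W X Z (f₁ (blk b ++ trimW y.1)) p.1,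
    upE fl η h jw W X Z (f₂ (blk b ++ trimW y.1)) p.2) :: y.2)

/-- The update of the block `iw` when the block `jw` is read. -/
def fillB (fl : Bool) (η h : ℕ) (b iw jw W X Z : List Bool) (B : List (Bool × Bool)) :
    List (Bool × Bool) :=
  (B.foldl (fun y p => fillStep f₁ f₂ fl η h b jw W X Z y p)
    (List.replicate η false ++ iw, [])).2.reverse

/-- One step of the evaluation of a block. -/
def evalStep (η h : ℕ) (b jw : List Bool) (y : List Bool × List Bool) (p : Bool × Bool) :
    List Bool × List Bool :=
  (incW y.1, y.2 ++ [gate (f₀ (blk b ++ trimW y.1))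
    (sv η h jw y.2 (f₁ (blk b ++ trimW y.1)) p.1)
    (sv η h jw y.2 (f₂ (blk b ++ trimW y.1)) p.2)])

/-- The values of the gates of the block `jw`. -/
def evalB (η h : ℕ) (b jw : List Bool) (B : List (Bool × Bool)) : List Bool :=
  (B.foldl (fun y p => evalStep f₀ f₁ f₂ η h b jw y p) (List.replicate η false ++ jw, [])).2

/-- The values of the sources of the gates of block `i`, as far as they are known. -/
def BS (h : ℕ) (b V x z : List Bool) (i : ℕ) : List (Bool × Bool) :=
  (List.range h).map (fun l => (src V x z (f₁ (blk b ++ (i * h + l).bits)),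
    src V x z (f₂ (blk b ++ (i * h + l).bits))))

end defs

theorem wordN_shift (η m i : ℕ) :
    wordN (η + m) (i * 2 ^ η) = List.replicate η false ++ wordN m i := by
  induction η with
  | zero => simp
  | succ η ih =>
    have e : η + 1 + m = (η + m) + 1 := by ring
    have e2 : i * 2 ^ (η + 1) = 2 * (i * 2 ^ η) := by ring
    rw [e, e2, wordN, Nat.mul_mod_right, Nat.mul_div_cancel_left _ (by omega), ih,
      List.replicate_succ]
    simp

theorem trimW_wordN {L t : ℕ} (h : t < 2 ^ L) : trimW (wordN L t) = t.bits := by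
  rw [trimW_eq, valW_wordN L t h]

section

variable {f₀ f₁ f₂ : List Bool → List Bool}

theorem length_BS (h : ℕ) (b V x z : List Bool) (i : ℕ) :
    (BS f₁ f₂ h b V x z i).length = h := by
  unfold BS
  simp

/-- The general form of the update. -/
theorem fillB_gen {fl : Bool} {η h m i : ℕ} (hh : h = 2 ^ η) (hi : i < 2 ^ m)
    {b jw W X Z V x z V' x' z' : List Bool}
    (hup : ∀ w, upE fl η h jw W X Z w (src V x z w) = src V' x' z' w) :
    fillB f₁ f₂ fl η h b (wordN m i) jw W X Z (BS f₁ f₂ h b V x z i) =
      BS f₁ f₂ h b V' x' z' i := by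
  have key : ∀ n, n ≤ h →
      ((List.range n).map (fun l => (src V x z (f₁ (blk b ++ (i * h + l).bits)),
        src V x z (f₂ (blk b ++ (i * h + l).bits))))).foldl
        (fun y p => fillStep f₁ f₂ fl η h b jw W X Z y p)
        (List.replicate η false ++ wordN m i, []) =
      (wordN (η + m) (i * h + n),
        ((List.range n).map (fun l => (src V' x' z' (f₁ (blk b ++ (i * h + l).bits)),
          src V' x' z' (f₂ (blk b ++ (i * h + l).bits))))).reverse) := by
    intro n
    induction n with
    | zero =>
      intro _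
      rw [List.range_zero, List.map_nil, List.foldl_nil, List.map_nil, List.reverse_nil,
        Nat.add_zero, hh, wordN_shift]
    | succ n ih =>
      intro hn
      rw [List.range_succ, List.map_append, List.foldl_append, ih (by omega), List.map_append]
      simp only [List.map_cons, List.map_nil, List.foldl_cons, List.foldl_nil]
      unfold fillStep
      simp only
      have hlt : i * h + n < 2 ^ (η + m) := by
        rw [pow_add, ← hh]
        calc i * h + n < i * h + h := by omega
          _ = h * (i + 1) := by ring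
          _ ≤ h * 2 ^ m := Nat.mul_le_mul_left _ hi
      rw [incW_wordN, trimW_wordN hlt, hup, hup, List.reverse_append]
      rfl
  unfold fillB
  have h1 := key h le_rfl
  unfold BS
  rw [h1, List.reverse_reverse]

theorem length_wires (b x z : List Bool) (i : ℕ) : (wires f₀ f₁ f₂ b x z i).length = i := by
  induction i with
  | zero => rfl
  | succ i ih => rw [wires, List.length_append, ih]; rfl

/-- The values of the gates of a block. -/
theorem evalB_eq {η h m j : ℕ} (hh : h = 2 ^ η) (hj : j < 2 ^ m) (b x z : List Bool) :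
    ∃ W, evalB f₀ f₁ f₂ η h b (wordN m j)
        (BS f₁ f₂ h b (wires f₀ f₁ f₂ b x z (j * h)) x z j) = W ∧ W.length = h ∧
      wires f₀ f₁ f₂ b x z ((j + 1) * h) = wires f₀ f₁ f₂ b x z (j * h) ++ W := by
  obtain ⟨V, hV⟩ : ∃ V, V = wires f₀ f₁ f₂ b x z (j * h) := ⟨_, rfl⟩
  have hVl : V.length = j * h := by rw [hV, length_wires]
  rw [← hV]
  have hjw : valW (wordN m j) = j := valW_wordN m j hj
  have key : ∀ n, n ≤ h → ∃ W : List Bool,
      ((List.range n).map (fun l => (src V x z (f₁ (blk b ++ (j * h + l).bits)),
        src V x z (f₂ (blk b ++ (j * h + l).bits))))).foldl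
        (fun y p => evalStep f₀ f₁ f₂ η h b (wordN m j) y p)
        (List.replicate η false ++ wordN m j, []) = (wordN (η + m) (j * h + n), W) ∧
      W.length = n ∧ wires f₀ f₁ f₂ b x z (j * h + n) = V ++ W := by
    intro n
    induction n with
    | zero =>
      intro _
      refine ⟨[], ?_, rfl, ?_⟩
      · rw [List.range_zero, List.map_nil, List.foldl_nil, Nat.add_zero, hh, wordN_shift]
      · rw [Nat.add_zero, ← hV, List.append_nil]
    | succ n ih =>
      intro hn
      obtain ⟨W, h1, h2, h3⟩ := ih (by omega)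
      have hlt : j * h + n < 2 ^ (η + m) := by
        rw [pow_add, ← hh]
        calc j * h + n < j * h + h := by omega
          _ = h * (j + 1) := by ring
          _ ≤ h * 2 ^ m := Nat.mul_le_mul_left _ hj
      refine ⟨W ++ [gate (f₀ (blk b ++ (j * h + n).bits))
        (src (V ++ W) x z (f₁ (blk b ++ (j * h + n).bits)))
        (src (V ++ W) x z (f₂ (blk b ++ (j * h + n).bits)))], ?_, ?_, ?_⟩
      · rw [List.range_succ, List.map_append, List.foldl_append, h1]
        simp only [List.map_cons, List.map_nil, List.foldl_cons, List.foldl_nil]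
        unfold evalStep
        simp only
        rw [incW_wordN, trimW_wordN hlt, sv_eq hh hjw hVl (by omega),
          sv_eq hh hjw hVl (by omega)]
        rfl
      · rw [List.length_append, h2]; rfl
      · have e : j * h + (n + 1) = (j * h + n) + 1 := by ring
        rw [e, wires, h3, List.append_assoc]
  obtain ⟨W, h1, h2, h3⟩ := key h le_rfl
  refine ⟨W, ?_, h2, ?_⟩
  · unfold evalB BS
    rw [h1]
  · have e : (j + 1) * h = j * h + h := by ring
    rw [e, h3]

/-! ### Computability -/

theorem length_fillStep (fl : Bool) (η h : ℕ) (b jw W X Z : List Bool)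
    (l : List (Bool × Bool)) (y : List Bool × List (Bool × Bool)) :
    (l.foldl (fun y p => fillStep f₁ f₂ fl η h b jw W X Z y p) y).1.length = y.1.length ∧
    (l.foldl (fun y p => fillStep f₁ f₂ fl η h b jw W X Z y p) y).2.length =
      l.length + y.2.length := by
  induction l generalizing y with
  | nil => simp
  | cons p l ih =>
    rw [List.foldl_cons]
    obtain ⟨h1, h2⟩ := ih (fillStep f₁ f₂ fl η h b jw W X Z y p)
    rw [h1, h2]
    unfold fillStep
    simp only [length_incW, List.length_cons, true_and]
    omega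

theorem size_pairs_le (l : List (Bool × Bool)) : size l ≤ 8 * l.length + 1 := by
  induction l with
  | nil => simp [size_nil]
  | cons p l ih =>
    obtain ⟨a, b⟩ := p
    rw [size_cons, size_pair, List.length_cons]
    have h1 := size_bool_le a
    have h2 := size_bool_le b
    omega

theorem length_le_size {κ : Type} [Rep κ] (l : List κ) : l.length ≤ size l := by
  induction l with
  | nil => simp
  | cons p l ih =>
    rw [size_cons, List.length_cons]
    omega

theorem LT.fillB' (hf₁ : LT f₁) (hf₂ : LT f₂) {fl : α → Bool} {η h : α → ℕ}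
    {b iw jw W X Z : α → List Bool} {B : α → List (Bool × Bool)} (h0 : LT fl) (h1 : LT η)
    (h2 : LT h) (h3 : LT b) (h4 : LT iw) (h5 : LT jw) (h6 : LT W) (h7 : LT X) (h8 : LT Z)
    (h9 : LT B) :
    LT (fun a => fillB f₁ f₂ (fl a) (η a) (h a) (b a) (iw a) (jw a) (W a) (X a) (Z a)
      (B a)) := by
  have hini : LT (fun a => ((List.replicate (η a) false ++ iw a, []) :
    List Bool × List (Bool × Bool))) := by fun_prop
  obtain ⟨C, hC0, hC⟩ := hini.exists_size_le
  obtain ⟨C', hC0', hC'⟩ := h9.exists_size_le
  have g1 : LT (fun z : α × ((List Bool × List (Bool × Bool)) × (Bool × Bool)) =>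
      f₁ (blk (b z.1) ++ trimW z.2.1.1)) := hf₁.comp (by fun_prop)
  have g2 : LT (fun z : α × ((List Bool × List (Bool × Bool)) × (Bool × Bool)) =>
      f₂ (blk (b z.1) ++ trimW z.2.1.1)) := hf₂.comp (by fun_prop)
  have hs : LT (fun z : α × ((List Bool × List (Bool × Bool)) × (Bool × Bool)) =>
      fillStep f₁ f₂ (fl z.1) (η z.1) (h z.1) (b z.1) (jw z.1) (W z.1) (X z.1) (Z z.1)
        z.2.1 z.2.2) := by
    unfold fillStep
    fun_prop
  have key := LT.foldl (l := B) (ini := fun a => ((List.replicate (η a) false ++ iw a, []) :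
    List Bool × List (Bool × Bool)))
    (s := fun z : α × ((List Bool × List (Bool × Bool)) × (Bool × Bool)) =>
      fillStep f₁ f₂ (fl z.1) (η z.1) (h z.1) (b z.1) (jw z.1) (W z.1) (X z.1) (Z z.1)
        z.2.1 z.2.2) h9 hini hs (2 * C + 8 * C' + 3) (by
    intro a k
    obtain ⟨r1, r2⟩ := length_fillStep (f₁ := f₁) (f₂ := f₂) (fl a) (η a) (h a) (b a) (jw a)
      (W a) (X a) (Z a) ((B a).take k) (List.replicate (η a) false ++ iw a, [])
    simp only at r1 r2 ⊢
    obtain ⟨S, hS⟩ : ∃ S, S = ((B a).take k).foldl (fun y p => fillStep f₁ f₂ (fl a) (η a)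
      (h a) (b a) (jw a) (W a) (X a) (Z a) y p) (List.replicate (η a) false ++ iw a, []) :=
      ⟨_, rfl⟩
    rw [← hS] at r1 r2 ⊢
    obtain ⟨S1, S2⟩ := S
    simp only at r1 r2
    rw [size_pair]
    have e1 := size_word_le S1
    have e2 := size_pairs_le S2
    have e3 := hC a
    rw [size_pair] at e3
    have e4 := le_size_word (List.replicate (η a) false ++ iw a)
    have e5 := hC' a
    have e6 := length_le_size (B a)
    have e7 : ((B a).take k).length ≤ (B a).length := by simp
    have e8 := size_pos a
    have e9 : (2 * C + 8 * C' + 3) * size a = 2 * (C * size a) + 8 * (C' * size a) +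
      3 * size a := by ring
    simp only [List.length_nil] at r2
    omega)
  unfold fillB
  fun_prop

theorem length_evalStep (η h : ℕ) (b jw : List Bool)
    (l : List (Bool × Bool)) (y : List Bool × List Bool) :
    (l.foldl (fun y p => evalStep f₀ f₁ f₂ η h b jw y p) y).1.length = y.1.length ∧
    (l.foldl (fun y p => evalStep f₀ f₁ f₂ η h b jw y p) y).2.length =
      l.length + y.2.length := by
  induction l generalizing y with
  | nil => simp
  | cons p l ih =>
    rw [List.foldl_cons]
    obtain ⟨h1, h2⟩ := ih (evalStep f₀ f₁ f₂ η h b jw y p)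
    rw [h1, h2]
    unfold evalStep
    simp only [length_incW, List.length_cons, List.length_append, List.length_nil, true_and]
    omega

theorem LT.evalB' (hf₀ : LT f₀) (hf₁ : LT f₁) (hf₂ : LT f₂) {η h : α → ℕ}
    {b jw : α → List Bool} {B : α → List (Bool × Bool)} (h1 : LT η)
    (h2 : LT h) (h3 : LT b) (h5 : LT jw) (h9 : LT B) :
    LT (fun a => evalB f₀ f₁ f₂ (η a) (h a) (b a) (jw a) (B a)) := by
  have hini : LT (fun a => ((List.replicate (η a) false ++ jw a, []) :
    List Bool × List Bool)) := by fun_prop
  obtain ⟨C, hC0, hC⟩ := hini.exists_size_le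
  obtain ⟨C', hC0', hC'⟩ := h9.exists_size_le
  have g0 : LT (fun z : α × ((List Bool × List Bool) × (Bool × Bool)) =>
      f₀ (blk (b z.1) ++ trimW z.2.1.1)) := hf₀.comp (by fun_prop)
  have g1 : LT (fun z : α × ((List Bool × List Bool) × (Bool × Bool)) =>
      f₁ (blk (b z.1) ++ trimW z.2.1.1)) := hf₁.comp (by fun_prop)
  have g2 : LT (fun z : α × ((List Bool × List Bool) × (Bool × Bool)) =>
      f₂ (blk (b z.1) ++ trimW z.2.1.1)) := hf₂.comp (by fun_prop)
  have hs : LT (fun z : α × ((List Bool × List Bool) × (Bool × Bool)) =>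
      evalStep f₀ f₁ f₂ (η z.1) (h z.1) (b z.1) (jw z.1) z.2.1 z.2.2) := by
    unfold evalStep gate
    fun_prop
  have key := LT.foldl (l := B) (ini := fun a => ((List.replicate (η a) false ++ jw a, []) :
    List Bool × List Bool))
    (s := fun z : α × ((List Bool × List Bool) × (Bool × Bool)) =>
      evalStep f₀ f₁ f₂ (η z.1) (h z.1) (b z.1) (jw z.1) z.2.1 z.2.2) h9 hini hs
      (2 * C + 4 * C' + 3) (by
    intro a k
    obtain ⟨r1, r2⟩ := length_evalStep (f₀ := f₀) (f₁ := f₁) (f₂ := f₂) (η a) (h a) (b a)
      (jw a) ((B a).take k) (List.replicate (η a) false ++ jw a, [])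
    simp only at r1 r2 ⊢
    obtain ⟨S, hS⟩ : ∃ S, S = ((B a).take k).foldl (fun y p => evalStep f₀ f₁ f₂ (η a)
      (h a) (b a) (jw a) y p) (List.replicate (η a) false ++ jw a, []) :=
      ⟨_, rfl⟩
    rw [← hS] at r1 r2 ⊢
    obtain ⟨S1, S2⟩ := S
    simp only at r1 r2
    rw [size_pair]
    have e1 := size_word_le S1
    have e2 := size_word_le S2
    have e3 := hC a
    rw [size_pair] at e3
    have e4 := le_size_word (List.replicate (η a) false ++ jw a)
    have e5 := hC' a
    have e6 := length_le_size (B a)
    have e7 : ((B a).take k).length ≤ (B a).length := by simp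
    have e8 := size_pos a
    have e9 : (2 * C + 4 * C' + 3) * size a = 2 * (C * size a) + 4 * (C' * size a) +
      3 * size a := by ring
    simp only [List.length_nil] at r2
    omega)
  unfold evalB
  fun_prop

end

end Pool.Agent.H7QC
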