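import Pool.Agent.H7QC.CircB

/-!
# The parallel machine that evaluates a circuit in blocks
-/

namespace Pool.Agent.H7QC

open Pool.Agent.PPS Pool.Agent.H7LS Pool.Agent.H7CA

variable {α β γ δ σ τ : Type} [Rep α] [Rep β] [Rep γ] [Rep δ] [Rep σ] [Rep τ]

/-- The parameters: the description of the circuit, `η`, the size `h = 2 ^ η` of the blocks, the
number of blocks of the inputs, the offset of the last gate. -/
abbrev PC := List Bool × (ℕ × (ℕ × (ℕ × ℕ)))

/-- The parameters, decoded. -/
def parC (nb : List Bool) : PC := DRep.dec (decodeD nb)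

@[fun_prop]
theorem LT.parC' {w : α → List Bool} (hw : LT w) : LT (fun a => parC (w a)) := by
  unfold parC; fun_prop

theorem parC_code (P : PC) (u : List Bool) : parC (code P ++ u) = P := by
  unfold parC
  rw [Pool.Agent.H7CA.decodeD_code, DRep.dec_rep]

/-- The state of a processor: the time, parts of the inputs, the sources of the gates of its
block. -/
abbrev SC := ℕ × (List Bool × (List Bool × List (Bool × Bool)))

/-- The memory content that represents an answer and a state. -/
def encC (r : Bool × SC) : List Bool := [r.1, false, true] ++ code r.2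

/-- The state, decoded. -/
def stC (v : List Bool) : SC := DRep.dec (decodeD (v.drop 3))

@[fun_prop]
theorem LT.encC' {w : α → Bool × SC} (hw : LT w) : LT (fun a => encC (w a)) := by
  unfold encC; fun_prop

@[fun_prop]
theorem LT.stC' {w : α → List Bool} (hw : LT w) : LT (fun a => stC (w a)) := by
  unfold stC; fun_prop

theorem length_encC (r : Bool × SC) : (encC r).length = size r.2 + 3 := by
  unfold encC
  have h : (code r.2).length = size r.2 := rfl
  rw [List.length_append, h]
  simp only [List.length_cons, List.length_nil]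
  omega

theorem fit_encC {s : ℕ} {r : Bool × SC} (h : size r.2 + 3 ≤ s) :
    fit s (encC r) = encC r ++ List.replicate (s - (size r.2 + 3)) false := by
  unfold fit
  have h1 := length_encC r
  rw [List.take_append, List.take_of_length_le (by omega), List.take_replicate, h1]
  congr 2
  omega

theorem stC_encC (r : Bool × SC) (u : List Bool) : stC (encC r ++ u) = r.2 := by
  unfold stC encC
  have h : ([r.1, false, true] ++ code r.2 ++ u).drop 3 = code r.2 ++ u := rfl
  rw [h, Pool.Agent.H7CA.decodeD_code, DRep.dec_rep]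

theorem encC_getD_two (r : Bool × SC) (u : List Bool) :
    (encC r ++ u).getD 2 false = true := rfl

theorem encC_getD_zero (r : Bool × SC) (u : List Bool) :
    (encC r ++ u).getD 0 false = r.1 := rfl

section defs

variable (f₀ f₁ f₂ : List Bool → List Bool)

/-- The next state. -/
def nextC (P : PC) (i : List Bool) (st st' : SC) : Bool × SC :=
  bif decide (st.1 < P.2.1) then
    (false, (st.1 + 1, (st.2.1 ++ st'.2.1, (st.2.2.1 ++ st'.2.2.1, st.2.2.2))))
  else bif decide (st.1 < P.2.1 + P.2.2.2.1) then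
    (false, (st.1 + 1, (st.2.1, (st.2.2.1, fillB f₁ f₂ false P.2.1 P.2.2.1 P.1 i
      (wordN i.length (st.1 - P.2.1)) [] st'.2.1 st'.2.2.1 st.2.2.2))))
  else
    ((evalB f₀ f₁ f₂ P.2.1 P.2.2.1 P.1 (wordN i.length (st.1 - (P.2.1 + P.2.2.2.1)))
      st'.2.2.2).getD P.2.2.2.2 false,
    (st.1 + 1, (st.2.1, (st.2.2.1, fillB f₁ f₂ true P.2.1 P.2.2.1 P.1 i
      (wordN i.length (st.1 - (P.2.1 + P.2.2.2.1)))
      (evalB f₀ f₁ f₂ P.2.1 P.2.2.1 P.1 (wordN i.length (st.1 - (P.2.1 + P.2.2.2.1)))
        st'.2.2.2) [] [] st.2.2.2))))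

/-- The processor that is read. -/
def addrC (P : PC) (i : List Bool) (st : SC) : List Bool :=
  bif decide (st.1 < P.2.1) then adN i st.2.1.length
  else bif decide (st.1 < P.2.1 + P.2.2.2.1) then
    List.replicate P.2.1 false ++ wordN (i.length - P.2.1) (st.1 - P.2.1)
  else wordN i.length (st.1 - (P.2.1 + P.2.2.2.1))

/-- The new memory content. -/
def cmU (nb i v w : List Bool) : List Bool :=
  bif v.getD 2 false then encC (nextC f₀ f₁ f₂ (parC nb) i (stC v) (stC w))
  else encC (false, (0, ([v.getD 0 false], ([v.getD 1 false],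
    List.replicate (parC nb).2.2.1 (false, false)))))

/-- The processor that is read. -/
def cmA (nb i v : List Bool) : List Bool :=
  bif v.getD 2 false then addrC (parC nb) i (stC v) else i

/-- The parallel machine that evaluates the circuit. -/
def cmM : PMach where
  addr z := cmA (hdB z) (hdB (tlB z)) (hdB (tlB (tlB z)))
  upd z := cmU f₀ f₁ f₂ (hdB z) (hdB (tlB z)) (hdB (tlB (tlB z))) (hdB (tlB (tlB (tlB z))))

end defs

theorem LT.nextC' {f₀ f₁ f₂ : List Bool → List Bool} (hf₀ : LT f₀) (hf₁ : LT f₁)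
    (hf₂ : LT f₂) {P : α → PC} {i : α → List Bool} {st st' : α → SC} (hP : LT P) (hi : LT i)
    (hst : LT st) (hst' : LT st') :
    LT (fun a => nextC f₀ f₁ f₂ (P a) (i a) (st a) (st' a)) := by
  have h1 : LT (fun a => fillB f₁ f₂ false (P a).2.1 (P a).2.2.1 (P a).1 (i a)
      (wordN (i a).length ((st a).1 - (P a).2.1)) [] (st' a).2.1 (st' a).2.2.1
      (st a).2.2.2) :=
    LT.fillB' hf₁ hf₂ (by fun_prop) (by fun_prop) (by fun_prop) (by fun_prop) (by fun_prop)
      (by fun_prop) (by fun_prop) (by fun_prop) (by fun_prop) (by fun_prop)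
  have h2 : LT (fun a => evalB f₀ f₁ f₂ (P a).2.1 (P a).2.2.1 (P a).1
      (wordN (i a).length ((st a).1 - ((P a).2.1 + (P a).2.2.2.1))) (st' a).2.2.2) :=
    LT.evalB' hf₀ hf₁ hf₂ (by fun_prop) (by fun_prop) (by fun_prop) (by fun_prop)
      (by fun_prop)
  have h3 : LT (fun a => fillB f₁ f₂ true (P a).2.1 (P a).2.2.1 (P a).1 (i a)
      (wordN (i a).length ((st a).1 - ((P a).2.1 + (P a).2.2.2.1)))
      (evalB f₀ f₁ f₂ (P a).2.1 (P a).2.2.1 (P a).1
        (wordN (i a).length ((st a).1 - ((P a).2.1 + (P a).2.2.2.1))) (st' a).2.2.2) [] []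
      (st a).2.2.2) :=
    LT.fillB' hf₁ hf₂ (by fun_prop) (by fun_prop) (by fun_prop) (by fun_prop) (by fun_prop)
      (by fun_prop) h2 (by fun_prop) (by fun_prop) (by fun_prop)
  unfold nextC
  fun_prop

@[fun_prop]
theorem LT.addrC' {P : α → PC} {i : α → List Bool} {st : α → SC} (hP : LT P) (hi : LT i)
    (hst : LT st) : LT (fun a => addrC (P a) (i a) (st a)) := by
  unfold addrC
  fun_prop

theorem LT.cmU' {f₀ f₁ f₂ : List Bool → List Bool} (hf₀ : LT f₀) (hf₁ : LT f₁)
    (hf₂ : LT f₂) {nb i v w : α → List Bool} (hn : LT nb) (hi : LT i) (hv : LT v)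
    (hw : LT w) : LT (fun a => cmU f₀ f₁ f₂ (nb a) (i a) (v a) (w a)) := by
  have h1 : LT (fun a => nextC f₀ f₁ f₂ (parC (nb a)) (i a) (stC (v a)) (stC (w a))) :=
    LT.nextC' hf₀ hf₁ hf₂ (by fun_prop) (by fun_prop) (by fun_prop) (by fun_prop)
  have h2 : LT (fun a => (parC (nb a)).2.2.1) := by fun_prop
  obtain ⟨C, hC0, hC⟩ := h2.exists_size_le
  have h3 : LT (fun a => List.replicate (parC (nb a)).2.2.1 (false, false)) := by
    refine LT.replicate' h2 (by fun_prop) (4 * C + 1) ?_
    intro a
    have h4 := hC a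
    rw [size_nat] at h4
    have h5 := size_pairs_le (List.replicate (parC (nb a)).2.2.1 (false, false))
    rw [List.length_replicate] at h5
    have h6 := size_pos a
    have h7 : (4 * C + 1) * size a = 4 * (C * size a) + size a := by ring
    omega
  unfold cmU
  fun_prop

theorem cmM_addr_mem (f₀ f₁ f₂ : List Bool → List Bool) : (cmM f₀ f₁ f₂).addr ∈ FLIN := by
  refine mem_FLIN_of_LT ?_
  show LT (fun z => cmA (hdB z) (hdB (tlB z)) (hdB (tlB (tlB z))))
  unfold cmA
  fun_prop

theorem cmM_upd_mem {f₀ f₁ f₂ : List Bool → List Bool} (hf₀ : f₀ ∈ FLIN) (hf₁ : f₁ ∈ FLIN)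
    (hf₂ : f₂ ∈ FLIN) : (cmM f₀ f₁ f₂).upd ∈ FLIN :=
  mem_FLIN_of_LT (LT.cmU' (LT_of_FLIN hf₀) (LT_of_FLIN hf₁) (LT_of_FLIN hf₂) (by fun_prop)
    (by fun_prop) (by fun_prop) (by fun_prop))

theorem cmM_addr (f₀ f₁ f₂ : List Bool → List Bool) (nb i v : List Bool) :
    (cmM f₀ f₁ f₂).addr (blk nb ++ blk i ++ blk v) = cmA nb i v := by
  have h1 : blk nb ++ blk i ++ blk v = blk nb ++ (blk i ++ (blk v ++ [])) := by simp
  rw [h1]
  simp only [cmM, hdB_blk, tlB_blk]

theorem cmM_upd (f₀ f₁ f₂ : List Bool → List Bool) (nb i v w : List Bool) :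
    (cmM f₀ f₁ f₂).upd (blk nb ++ blk i ++ blk v ++ blk w) = cmU f₀ f₁ f₂ nb i v w := by
  have h1 : blk nb ++ blk i ++ blk v ++ blk w =
      blk nb ++ (blk i ++ (blk v ++ (blk w ++ []))) := by simp
  rw [h1]
  simp only [cmM, hdB_blk, tlB_blk]

/-! ### The states -/

/-- The part of the input known to processor `i` after `t` doublings. -/
def XS (m : ℕ) (x : List Bool) (t i : ℕ) : List Bool :=
  (List.range (2 ^ t)).map (fun e => x.getD ((i + e) % 2 ^ m) false)

theorem length_XS (m : ℕ) (x : List Bool) (t i : ℕ) : (XS m x t i).length = 2 ^ t := by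
  unfold XS; simp

theorem XS_succ (m : ℕ) (x : List Bool) (t i : ℕ) :
    XS m x (t + 1) i = XS m x t i ++ XS m x t ((i + 2 ^ t) % 2 ^ m) := by
  unfold XS
  have e : 2 ^ (t + 1) = 2 ^ t + 2 ^ t := by ring
  rw [e, List.range_add, List.map_append, List.map_map]
  congr 1
  refine List.map_congr_left (fun l _ => ?_)
  simp only [Function.comp_apply]
  congr 1
  rw [Nat.mod_add_mod, add_assoc]

theorem getD_XS {m : ℕ} {x : List Bool} {t i e : ℕ} (he : e < 2 ^ t) (hi : i + e < 2 ^ m) :
    (XS m x t i).getD e false = x.getD (i + e) false := by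
  unfold XS
  rw [List.getD_eq_getElem?_getD, List.getElem?_map, List.getElem?_range he]
  simp only [Option.map_some, Option.getD_some]
  rw [Nat.mod_eq_of_lt hi]

section

variable (f₀ f₁ f₂ : List Bool → List Bool) (m η h J : ℕ) (b x z : List Bool)

/-- The state of processor `i` at time `t`. -/
def stS (t i : ℕ) : SC :=
  (t, (XS m x (min t η) i, (XS m z (min t η) i,
    BS f₁ f₂ h b (wires f₀ f₁ f₂ b x z ((t - (η + J)) * h)) (x.take ((t - η) * h))
      (z.take ((t - η) * h)) i)))

/-- The number of the processor that is read at time `t`. -/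
def rdS (t i : ℕ) : ℕ :=
  if t < η then (i + 2 ^ t) % 2 ^ m
  else if t < η + J then (t - η) * h else t - (η + J)

end

section

variable {f₀ f₁ f₂ : List Bool → List Bool} {m η h J G : ℕ} {b x z : List Bool}

theorem size_stS (hh : h = 2 ^ η) (t i : ℕ) :
    size (stS f₀ f₁ f₂ m η h J b x z t i) ≤ 2 * t + 16 * h + 10 := by
  unfold stS
  rw [size_pair, size_pair, size_pair, size_nat]
  have h1 := size_word_le (XS m x (min t η) i)
  have h2 := size_word_le (XS m z (min t η) i)
  rw [length_XS] at h1 h2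
  have h3 := size_pairs_le (BS f₁ f₂ h b (wires f₀ f₁ f₂ b x z ((t - (η + J)) * h))
    (x.take ((t - η) * h)) (z.take ((t - η) * h)) i)
  rw [length_BS] at h3
  have h4 : 2 ^ min t η ≤ h := by
    rw [hh]; exact Nat.pow_le_pow_right (by omega) (Nat.min_le_right _ _)
  omega

theorem addrC_stS (hh : h = 2 ^ η) (hη : η ≤ m) (o : ℕ) (t i : ℕ) :
    addrC (b, (η, (h, (J, o)))) (wordN m i) (stS f₀ f₁ f₂ m η h J b x z t i) =
      wordN m (rdS m η h J t i) := by
  unfold addrC rdS stS
  simp only [length_wordN, length_XS]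
  by_cases h1 : t < η
  · rw [decide_eq_true h1, cond_true, if_pos h1, Nat.min_eq_left h1.le, wordN_mod]
    show incW^[2 ^ t] (wordN m i) = _
    rw [incW_iterate]
  · rw [decide_eq_false h1, cond_false, if_neg h1]
    by_cases h2 : t < η + J
    · rw [decide_eq_true h2, cond_true, if_pos h2, ← wordN_shift, ← hh]
      congr 1
      omega
    · rw [decide_eq_false h2, cond_false, if_neg h2]

theorem nextC_stS (hh : h = 2 ^ η) (hx : x.length ≤ J * h)
    (hz : z.length ≤ J * h) (hJ : J * h ≤ 2 ^ m) (hG : G ≤ 2 ^ m) (o : ℕ) {t i : ℕ}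
    (ht : t < η + J + G) (hi : i < 2 ^ m) :
    ∃ ans : Bool, nextC f₀ f₁ f₂ (b, (η, (h, (J, o)))) (wordN m i)
      (stS f₀ f₁ f₂ m η h J b x z t i)
      (stS f₀ f₁ f₂ m η h J b x z t (rdS m η h J t i)) =
      (ans, stS f₀ f₁ f₂ m η h J b x z (t + 1) i) ∧
      (η + J ≤ t → ∃ W, W.length = h ∧ wires f₀ f₁ f₂ b x z ((t + 1 - (η + J)) * h) =
        wires f₀ f₁ f₂ b x z ((t - (η + J)) * h) ++ W ∧ ans = W.getD o false) := by
  have hpos : 0 < h := by rw [hh]; positivity
  by_cases h1 : t < η
  · refine ⟨false, ?_, fun h => by omega⟩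
    unfold nextC rdS stS
    simp only
    rw [decide_eq_true h1, cond_true, if_pos h1, Nat.min_eq_left h1.le,
      Nat.min_eq_left (show t + 1 ≤ η from h1), XS_succ, XS_succ]
    have e1 : t - (η + J) = t + 1 - (η + J) := by omega
    have e2 : t - η = t + 1 - η := by omega
    rw [e1, e2]
  · by_cases h2 : t < η + J
    · refine ⟨false, ?_, fun h => by omega⟩
      unfold nextC rdS stS
      simp only [length_wordN]
      rw [decide_eq_false h1, decide_eq_true h2, cond_false, cond_true, if_neg h1, if_pos h2,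
        Nat.min_eq_right (show η ≤ t by omega), Nat.min_eq_right (show η ≤ t + 1 by omega)]
      have e1 : t + 1 - (η + J) = 0 := by omega
      have e1' : t - (η + J) = 0 := by omega
      obtain ⟨j, hj⟩ : ∃ j, j = t - η := ⟨_, rfl⟩
      have e2 : t + 1 - η = j + 1 := by omega
      have hjJ : j + 1 ≤ J := by omega
      rw [e1, e1', e2, ← hj]
      have h3 : (j + 1) * h ≤ 2 ^ m := (Nat.mul_le_mul_right _ hjJ).trans hJ
      have h3' : (j + 1) * h = j * h + h := by ring
      have h4 : j < 2 ^ m := by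
        have : j + 1 ≤ (j + 1) * h := Nat.le_mul_of_pos_right _ hpos
        omega
      have h5 : ∀ y : List Bool, ∀ e < h, (XS m y η (j * h)).getD e false =
          y.getD (j * h + e) false := by
        intro y e he
        exact getD_XS (by rw [← hh]; exact he) (by omega)
      have h6 : wires f₀ f₁ f₂ b x z (0 * h) = [] := by rw [Nat.zero_mul]; rfl
      rw [h6, fillB_gen hh hi (fun w => upE_false hh (valW_wordN m j h4) (h5 x) (h5 z) [] w)]
    · obtain ⟨j, hj⟩ : ∃ j, j = t - (η + J) := ⟨_, rfl⟩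
      have e2 : t + 1 - (η + J) = j + 1 := by omega
      have hjG : j < 2 ^ m := by omega
      obtain ⟨W, hW1, hW2, hW3⟩ := evalB_eq (f₀ := f₀) (f₁ := f₁) (f₂ := f₂) hh hjG b x z
      have hxt : ∀ t', η + J ≤ t' → x.take ((t' - η) * h) = x := by
        intro t' ht'
        refine List.take_of_length_le (hx.trans (Nat.mul_le_mul_right _ ?_))
        omega
      have hzt : ∀ t', η + J ≤ t' → z.take ((t' - η) * h) = z := by
        intro t' ht'
        refine List.take_of_length_le (hz.trans (Nat.mul_le_mul_right _ ?_))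
        omega
      refine ⟨W.getD o false, ?_, fun _ => ⟨W, hW2, ?_, rfl⟩⟩
      · unfold nextC rdS stS
        simp only [length_wordN]
        rw [decide_eq_false h1, decide_eq_false h2, cond_false, cond_false, if_neg h1,
          if_neg h2, Nat.min_eq_right (show η ≤ t by omega),
          Nat.min_eq_right (show η ≤ t + 1 by omega), e2, ← hj, hxt t (by omega),
          hzt t (by omega), hxt (t + 1) (by omega), hzt (t + 1) (by omega), hW1]
        rw [fillB_gen hh hi (fun w => upE_true hh (valW_wordN m j hjG)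
          (length_wires b x z (j * h)) hW2.le [] [] x z w), ← hW3]
      · rw [e2, ← hj]
        exact hW3

/-- The number that carries the parameters. -/
def numC (P : PC) : ℕ := valW (code P ++ [true])

theorem parC_numC (P : PC) : parC (numC P).bits = P := by
  unfold numC
  rw [bits_valW, parC_code]

theorem fit_two' {s : ℕ} (hs : 2 ≤ s) (p q : Bool) :
    (fit s [p, q]).getD 0 false = p ∧ (fit s [p, q]).getD 1 false = q := by
  obtain ⟨s, rfl⟩ : ∃ t, s = t + 2 := ⟨s - 2, by omega⟩
  simp [fit]

theorem BS_nil (h : ℕ) (b : List Bool) (i : ℕ) :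
    BS f₁ f₂ h b [] [] [] i = List.replicate h (false, false) := by
  unfold BS
  have e : ∀ w, src [] [] [] w = false := by
    intro w
    unfold src
    cases w.getD 0 false <;> cases w.getD 1 false <;> simp
  simp only [e]
  rw [List.map_const']
  simp

/-- The memory of the machine. -/
theorem mem_cmM (hh : h = 2 ^ η) (hη : η ≤ m) (hx : x.length ≤ J * h)
    (hz : z.length ≤ J * h) (hJ : J * h ≤ 2 ^ m) (hG : G ≤ 2 ^ m) (o : ℕ) {s : ℕ}
    (hs : 2 * (η + J + G) + 16 * h + 20 ≤ s) (t : ℕ) (ht : t ≤ η + J + G) :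
    ∀ i, i < 2 ^ m → ∃ ans : Bool,
      (cmM f₀ f₁ f₂).mem (numC (b, (η, (h, (J, o))))) m s x z (t + 1) (wordN m i) =
        encC (ans, stS f₀ f₁ f₂ m η h J b x z t i) ++ List.replicate
          (s - (size (stS f₀ f₁ f₂ m η h J b x z t i) + 3)) false ∧
      (η + J < t → ∃ W, W.length = h ∧ wires f₀ f₁ f₂ b x z ((t - (η + J)) * h) =
        wires f₀ f₁ f₂ b x z ((t - 1 - (η + J)) * h) ++ W ∧ ans = W.getD o false) := by
  induction t with
  | zero =>
    intro i hi
    refine ⟨false, ?_, fun h => by omega⟩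
    obtain ⟨e1, e2⟩ := fit_two' (s := s) (by omega) (x.getD i false) (z.getD i false)
    have e3 : stS f₀ f₁ f₂ m η h J b x z 0 i = (0, ([x.getD i false], ([z.getD i false],
        List.replicate h (false, false)))) := by
      unfold stS
      have h1 : ∀ y : List Bool, XS m y (min 0 η) i = [y.getD i false] := by
        intro y
        unfold XS
        rw [Nat.zero_min, pow_zero, List.range_one, List.map_singleton, Nat.add_zero,
          Nat.mod_eq_of_lt hi]
      rw [h1, h1, Nat.zero_sub, Nat.zero_sub, Nat.zero_mul, List.take_zero, List.take_zero]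
      have h2 : wires f₀ f₁ f₂ b x z 0 = [] := rfl
      rw [h2, BS_nil]
    rw [mem_succ, cmM_upd, mem_zero, valW_wordN m i hi]
    unfold cmU
    rw [fit_getD_two, cond_false, e1, e2, parC_numC]
    simp only
    rw [← e3, fit_encC]
    have := size_stS (f₀ := f₀) (f₁ := f₁) (f₂ := f₂) (m := m) (J := J) (b := b) (x := x)
      (z := z) hh 0 i
    simp only
    omega
  | succ t ih =>
    intro i hi
    obtain ⟨a1, h1, _⟩ := ih (by omega) i hi
    obtain ⟨a, ha⟩ : ∃ a, a = rdS m η h J t i := ⟨_, rfl⟩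
    have hpos : 0 < h := by rw [hh]; positivity
    have ham : a < 2 ^ m := by
      rw [ha]
      unfold rdS
      split_ifs with h3 h4
      · exact Nat.mod_lt _ (by positivity)
      · refine lt_of_lt_of_le ?_ hJ
        exact Nat.mul_lt_mul_of_pos_right (by omega) hpos
      · omega
    obtain ⟨a2, h2, _⟩ := ih (by omega) a ham
    obtain ⟨ans, h3, h4⟩ := nextC_stS (f₀ := f₀) (f₁ := f₁) (f₂ := f₂) (b := b) hh hx hz hJ
      hG o (show t < η + J + G by omega) hi
    have hadr := addrC_stS (f₀ := f₀) (f₁ := f₁) (f₂ := f₂) (J := J) (b := b) (x := x)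
      (z := z) hh hη o t i
    rw [← ha] at h3 hadr
    refine ⟨ans, ?_, ?_⟩
    · rw [mem_succ, cmM_upd, cmM_addr, h1]
      have e1 : cmA (numC (b, (η, (h, (J, o))))).bits (wordN m i)
          (encC (a1, stS f₀ f₁ f₂ m η h J b x z t i) ++ List.replicate
            (s - (size (stS f₀ f₁ f₂ m η h J b x z t i) + 3)) false) = wordN m a := by
        unfold cmA
        rw [encC_getD_two, cond_true, parC_numC, stC_encC, hadr]
      rw [e1, fit_of_length (length_wordN _ _), h2]
      unfold cmU
      rw [encC_getD_two, cond_true, parC_numC, stC_encC, stC_encC]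
      simp only
      rw [h3, fit_encC]
      have := size_stS (f₀ := f₀) (f₁ := f₁) (f₂ := f₂) (m := m) (J := J) (b := b) (x := x)
        (z := z) hh (t + 1) i
      simp only
      omega
    · intro h5
      obtain ⟨W, w1, w2, w3⟩ := h4 (by omega)
      refine ⟨W, w1, ?_, w3⟩
      rw [w2]
      rfl

end

end Pool.Agent.H7QC
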