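import Pool.Agent.H7QC.CircA
import Pool.Agent.H7CA.TableD

/-!
# Arbitrary circuits
-/

namespace Pool.Agent.H7QC

open Pool.Agent.PPS Pool.Agent.H7LS Pool.Agent.H7CA Filter Asymptotics

/-- The entry of the table for a gate. -/
def ent (z : List Bool) : List Bool :=
  entry (tlB (hdB z)) (4 + ((hdB (hdB z)).length + (hdB (hdB z)).length))
    (valCap (tlB (hdB z)).length (tlB z))

/-- The truth table of a gate, from the table. -/
def t₀ (z : List Bool) : List Bool := (ent z).take 4

/-- The first source of a gate, from the table. -/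
def t₁ (z : List Bool) : List Bool := ((ent z).drop 4).take (hdB (hdB z)).length

/-- The second source of a gate, from the table. -/
def t₂ (z : List Bool) : List Bool := (ent z).drop (4 + (hdB (hdB z)).length)

theorem t₀_mem : t₀ ∈ FLIN := by
  refine mem_FLIN_of_LT ?_
  unfold t₀ ent
  fun_prop

theorem t₁_mem : t₁ ∈ FLIN := by
  refine mem_FLIN_of_LT ?_
  unfold t₁ ent
  fun_prop

theorem t₂_mem : t₂ ∈ FLIN := by
  refine mem_FLIN_of_LT ?_
  unfold t₂ ent
  fun_prop

/-- The canonical form of a source. -/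
def cw (μ : ℕ) (w : List Bool) : List Bool :=
  [w.getD 0 false, w.getD 1 false] ++ wordN μ (min (valW (w.drop 2)) (2 ^ μ - 1))

theorem length_cw (μ : ℕ) (w : List Bool) : (cw μ w).length = μ + 2 := by
  unfold cw
  rw [List.length_append, length_wordN]
  simp only [List.length_cons, List.length_nil]
  omega

theorem getD_min {V : List Bool} {N v : ℕ} (h : V.length ≤ N) :
    V.getD (min v N) false = V.getD v false := by
  rcases Nat.lt_or_ge v N with h1 | h1
  · rw [Nat.min_eq_left h1.le]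
  · rw [Nat.min_eq_right h1, List.getD_eq_getElem?_getD, List.getD_eq_getElem?_getD,
      List.getElem?_eq_none h, List.getElem?_eq_none (h.trans h1)]

theorem src_cw {μ : ℕ} {V x z : List Bool} (hV : V.length ≤ 2 ^ μ - 1)
    (hx : x.length ≤ 2 ^ μ - 1) (hz : z.length ≤ 2 ^ μ - 1) (w : List Bool) :
    src V x z (cw μ w) = src V x z w := by
  have h1 : (cw μ w).getD 0 false = w.getD 0 false := rfl
  have h2 : (cw μ w).getD 1 false = w.getD 1 false := rfl
  have h3 : (cw μ w).drop 2 = wordN μ (min (valW (w.drop 2)) (2 ^ μ - 1)) := rfl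
  have hpos : 0 < 2 ^ μ := by positivity
  unfold src
  rw [h1, h2, h3, valW_wordN _ _ (by omega), getD_min hV, getD_min hx, getD_min hz]

theorem gate_fit (t : List Bool) (p q : Bool) : gate (fit 4 t) p q = gate t p q := by
  unfold gate
  have h1 : p.toNat + p.toNat + q.toNat < 4 := by cases p <;> cases q <;> decide
  generalize p.toNat + p.toNat + q.toNat = v at h1
  unfold fit
  rw [List.getD_eq_getElem?_getD, List.getD_eq_getElem?_getD, List.getElem?_take, if_pos h1]
  rcases Nat.lt_or_ge v t.length with h2 | h2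
  · rw [List.getElem?_append_left h2]
  · rw [List.getElem?_append_right h2, List.getElem?_eq_none h2, List.getElem?_replicate]
    split_ifs <;> rfl

/-- The table of a circuit. -/
def tabC (F₀ F₁ F₂ : List Bool → List Bool) (b : List Bool) (μ S : ℕ) : List Bool :=
  blk (List.replicate (μ + 2) true) ++ (List.range S).flatMap (fun i =>
    fit 4 (F₀ (blk b ++ i.bits)) ++ (cw μ (F₁ (blk b ++ i.bits)) ++
      cw μ (F₂ (blk b ++ i.bits))))

theorem length_tabC (F₀ F₁ F₂ : List Bool → List Bool) (b : List Bool) (μ S : ℕ) :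
    (tabC F₀ F₁ F₂ b μ S).length = 2 * (μ + 2) + 1 + S * (4 + ((μ + 2) + (μ + 2))) := by
  unfold tabC
  rw [List.length_append, length_blk, List.length_flatMap]
  simp [length_fit, length_cw]

theorem ent_tabC (F₀ F₁ F₂ : List Bool → List Bool) (b : List Bool) {μ S i : ℕ} (hi : i < S) :
    ent (blk (tabC F₀ F₁ F₂ b μ S) ++ i.bits) =
      fit 4 (F₀ (blk b ++ i.bits)) ++ (cw μ (F₁ (blk b ++ i.bits)) ++
        cw μ (F₂ (blk b ++ i.bits))) := by
  obtain ⟨tb, htb⟩ : ∃ tb, tb = (List.range S).flatMap (fun i =>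
    fit 4 (F₀ (blk b ++ i.bits)) ++ (cw μ (F₁ (blk b ++ i.bits)) ++
      cw μ (F₂ (blk b ++ i.bits)))) := ⟨_, rfl⟩
  have hlen : ∀ i : ℕ, (fit 4 (F₀ (blk b ++ i.bits)) ++ (cw μ (F₁ (blk b ++ i.bits)) ++
      cw μ (F₂ (blk b ++ i.bits)))).length = 4 + ((μ + 2) + (μ + 2)) := by
    intro i
    rw [List.length_append, List.length_append, length_fit, length_cw, length_cw]
  have htl : tb.length = S * (4 + ((μ + 2) + (μ + 2))) := by
    rw [htb, List.length_flatMap]
    simp [length_fit, length_cw]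
  have hle : i ≤ tb.length := by
    rw [htl]
    exact hi.le.trans (Nat.le_mul_of_pos_right _ (by omega))
  unfold ent
  rw [hdB_blk, tlB_blk]
  unfold tabC
  rw [hdB_blk, tlB_blk, ← htb, List.length_replicate, valCap_bits hle]
  unfold entry
  rw [htb, iter_drop_flatMap _ hlen]
  have h4 : (List.range S).drop i = i :: (List.range S).drop (i + 1) := by
    have h4 := List.drop_eq_getElem_cons (l := List.range S) (i := i) (by simpa using hi)
    rw [h4]
    simp
  rw [h4, List.flatMap_cons, List.take_left' (hlen i)]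

theorem wires_tabC (F₀ F₁ F₂ : List Bool → List Bool) (b : List Bool) {μ S : ℕ}
    {x z : List Bool} (hS : S ≤ 2 ^ μ - 1) (hx : x.length ≤ 2 ^ μ - 1)
    (hz : z.length ≤ 2 ^ μ - 1) (i : ℕ) (hi : i ≤ S) :
    wires t₀ t₁ t₂ (tabC F₀ F₁ F₂ b μ S) x z i = wires F₀ F₁ F₂ b x z i := by
  induction i with
  | zero => rfl
  | succ i ih =>
    have he := ent_tabC F₀ F₁ F₂ b (μ := μ) (show i < S by omega)
    have hl : (hdB (hdB (blk (tabC F₀ F₁ F₂ b μ S) ++ i.bits))).length = μ + 2 := by
      rw [hdB_blk]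
      unfold tabC
      rw [hdB_blk, List.length_replicate]
    have h0 : t₀ (blk (tabC F₀ F₁ F₂ b μ S) ++ i.bits) = fit 4 (F₀ (blk b ++ i.bits)) := by
      unfold t₀
      rw [he]
      exact List.take_left' (length_fit _ _)
    have h1 : t₁ (blk (tabC F₀ F₁ F₂ b μ S) ++ i.bits) = cw μ (F₁ (blk b ++ i.bits)) := by
      unfold t₁
      rw [he, hl, List.drop_left' (length_fit _ _)]
      exact List.take_left' (length_cw _ _)
    have h2 : t₂ (blk (tabC F₀ F₁ F₂ b μ S) ++ i.bits) = cw μ (F₂ (blk b ++ i.bits)) := by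
      unfold t₂
      rw [he, hl, ← List.append_assoc]
      refine List.drop_left' ?_
      rw [List.length_append, length_fit, length_cw]
    rw [wires, wires, ih (by omega), h0, h1, h2, gate_fit]
    have hV : (wires F₀ F₁ F₂ b x z i).length ≤ 2 ^ μ - 1 := by
      rw [length_wires]; omega
    rw [src_cw hV hx hz, src_cw hV hx hz]

theorem outC_tabC (F₀ F₁ F₂ : List Bool → List Bool) (b : List Bool) {μ S : ℕ}
    {x z : List Bool} (hS : S ≤ 2 ^ μ - 1) (hx : x.length ≤ 2 ^ μ - 1)
    (hz : z.length ≤ 2 ^ μ - 1) :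
    outC t₀ t₁ t₂ (tabC F₀ F₁ F₂ b μ S) x z S = outC F₀ F₁ F₂ b x z S := by
  unfold outC
  rw [wires_tabC F₀ F₁ F₂ b hS hx hz S le_rfl]

theorem sum_fst_le (q : List (ℕ × ℕ)) :
    (q.map Prod.fst).sum ≤ (q.map (fun r => r.1 + 1)).sum := by
  induction q with
  | nil => simp
  | cons r q ih =>
    rw [List.map_cons, List.sum_cons, List.map_cons, List.sum_cons]
    omega

/-- Hard languages are hard for arbitrary small circuits with counting quantifiers. -/
theorem circuits_all_of_hardQ {k K : ℕ} {c : ℝ} {L : Set (List Bool)} (hk : 1 ≤ k)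
    (hlow : HardQ k K c L) : ∀ S : ℕ → ℕ,
      (fun n : ℕ => (S n : ℝ) * Nat.log 2 n) =o[atTop] (fun n : ℕ => (n : ℝ) ^ k) →
      ∀ᶠ n : ℕ in atTop, ∀ (f g h : List Bool → List Bool) (b a : List Bool)
        (q : List (ℕ × ℕ)),
        a.length ≤ K * n ^ k → (q.map (fun r => r.1 + 1)).sum ≤ K * n ^ k →
        |({x : List Bool | x.length = n ∧
            (quant q (fun y => outC f g h b x (y ++ a) (S n)) = true ↔ x ∈ L)}.ncard : ℝ) /
            2 ^ n - 1 / 2| ≤ 2 ^ (-(c * n)) := by
  have hb := circuits_of_hardQ hk hlow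
  intro S ho
  have hpow : (fun n : ℕ => (n : ℝ)) =O[atTop] (fun n : ℕ => (n : ℝ) ^ k) := by
    refine IsBigO.of_bound 1 ?_
    filter_upwards [eventually_ge_atTop 1] with n hn
    rw [one_mul, Real.norm_of_nonneg (by positivity), Real.norm_of_nonneg (by positivity)]
    have := le_pow_self' n hk
    exact_mod_cast this
  obtain ⟨μ, hμ⟩ : ∃ μ : ℕ → ℕ, μ = fun n => (Nat.log 2 n + 1) * k + (2 * K + 3) := ⟨_, rfl⟩
  obtain ⟨C, hC⟩ : ∃ C : ℕ, C = 4 * (k + (2 * K + 3)) + 20 := ⟨_, rfl⟩
  have hsum : (fun n : ℕ => (C : ℝ) * ((S n : ℝ) * Nat.log 2 n) + (C : ℝ) *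
      (((Nat.log 2 n : ℝ) + 1) * ((Nat.log 2 n : ℝ) + 1))) =o[atTop]
        (fun n : ℕ => (n : ℝ) ^ k) :=
    (ho.const_mul_left _).add ((sq_log_isLittleO.trans_isBigO hpow).const_mul_left _)
  have hp : (fun n : ℕ => ((2 * (μ n + 2) + 1 + S n * (4 + ((μ n + 2) + (μ n + 2))) : ℕ) :
      ℝ)) =o[atTop] (fun n : ℕ => (n : ℝ) ^ k) := by
    refine IsBigO.trans_isLittleO (IsBigO.of_bound 1 ?_) hsum
    filter_upwards [eventually_ge_atTop 2] with n hn2
    rw [one_mul, Real.norm_of_nonneg (by positivity), Real.norm_of_nonneg (by positivity)]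
    obtain ⟨w, hw⟩ : ∃ w, w = Nat.log 2 n := ⟨_, rfl⟩
    have hw1 : 1 ≤ w := by rw [hw]; exact Nat.log_pos (by omega) hn2
    have h1 : 2 * (μ n + 2) + 1 + S n * (4 + ((μ n + 2) + (μ n + 2))) ≤
        C * (S n * w) + C * ((w + 1) * (w + 1)) := by
      have h2 : μ n ≤ (k + (2 * K + 3)) * (w + 1) := by
        rw [hμ]
        simp only
        rw [← hw]
        have h3 : 2 * K + 3 ≤ (2 * K + 3) * (w + 1) := Nat.le_mul_of_pos_right _ (by omega)
        have h4 : (k + (2 * K + 3)) * (w + 1) = (w + 1) * k + (2 * K + 3) * (w + 1) := by ring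
        omega
      obtain ⟨D, hD⟩ : ∃ D, D = k + (2 * K + 3) := ⟨_, rfl⟩
      rw [← hD] at h2 hC
      have h5 : 4 + ((μ n + 2) + (μ n + 2)) ≤ C * w := by
        have h6 : D * (w + 1) ≤ 2 * (D * w) := by
          have : D ≤ D * w := Nat.le_mul_of_pos_right _ hw1
          have e : D * (w + 1) = D * w + D := by ring
          omega
        have h7 : C * w = 4 * (D * w) + 20 * w := by rw [hC]; ring
        omega
      have h8 : S n * (4 + ((μ n + 2) + (μ n + 2))) ≤ C * (S n * w) := by
        calc S n * (4 + ((μ n + 2) + (μ n + 2))) ≤ S n * (C * w) := Nat.mul_le_mul_left _ h5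
          _ = C * (S n * w) := by ring
      have h9 : 2 * (μ n + 2) + 1 ≤ C * ((w + 1) * (w + 1)) := by
        have h10 : C * w ≤ C * ((w + 1) * (w + 1)) := by
          refine Nat.mul_le_mul_left _ ?_
          have : w + 1 ≤ (w + 1) * (w + 1) := Nat.le_mul_of_pos_left _ (by omega)
          omega
        omega
      omega
    have h2 : ((2 * (μ n + 2) + 1 + S n * (4 + ((μ n + 2) + (μ n + 2))) : ℕ) : ℝ) ≤
        ((C * (S n * w) + C * ((w + 1) * (w + 1)) : ℕ) : ℝ) := by exact_mod_cast h1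
    rw [← hw]
    refine h2.trans (le_of_eq ?_)
    push_cast
    ring
  have ho2 : (fun n : ℕ => (S n : ℝ) * Nat.log 2 n) =o[atTop]
      (fun n : ℕ => (n : ℝ) ^ (2 * k)) := by
    refine ho.trans_isBigO (IsBigO.of_bound 1 ?_)
    filter_upwards [eventually_ge_atTop 1] with n hn
    rw [one_mul, Real.norm_of_nonneg (by positivity), Real.norm_of_nonneg (by positivity)]
    have : n ^ k ≤ n ^ (2 * k) := Nat.pow_le_pow_right (by omega) (by omega)
    exact_mod_cast this
  have ev1 : ∀ᶠ n : ℕ in atTop, S n ≤ n ^ k := by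
    filter_upwards [ho.bound (show (0 : ℝ) < 1 by norm_num), eventually_ge_atTop 2]
      with n hn hn2
    rw [Real.norm_of_nonneg (by positivity), Real.norm_of_nonneg (by positivity),
      one_mul] at hn
    have h1 : S n * Nat.log 2 n ≤ n ^ k := by exact_mod_cast hn
    have h2 : 1 ≤ Nat.log 2 n := Nat.log_pos (by omega) hn2
    exact (Nat.le_mul_of_pos_right _ h2).trans h1
  have key := hb t₀ t₀_mem t₁ t₁_mem t₂ t₂_mem _ S hp ho2
  filter_upwards [key, ev1, eventually_ge_atTop 2] with n hn hn1 hn2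
  intro f g h b a q ha hq
  have hn := hn (tabC f g h b (μ n) (S n)) a q (length_tabC _ _ _ _ _ _).le ha hq
  have hnk : n ≤ n ^ k := Nat.le_self_pow (by omega) n
  have hbig : (2 * K + 1) * n ^ k ≤ 2 ^ μ n - 1 := by
    have hnw : n < 2 ^ (Nat.log 2 n + 1) := Nat.lt_pow_succ_log_self (by omega) n
    have h1 : n ^ k ≤ 2 ^ ((Nat.log 2 n + 1) * k) := by
      rw [pow_mul]; exact Nat.pow_le_pow_left hnw.le _
    have h2 : 2 * K + 3 < 2 ^ (2 * K + 3) := (2 * K + 3).lt_two_pow_self
    have h3 : (2 * K + 3) * n ^ k ≤ 2 ^ μ n := by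
      rw [hμ]
      simp only
      rw [pow_add, Nat.mul_comm]
      exact Nat.mul_le_mul h1 h2.le
    have h4 : (2 * K + 3) * n ^ k = (2 * K + 1) * n ^ k + 2 * n ^ k := by ring
    omega
  have e1 : (2 * K + 1) * n ^ k = K * n ^ k + K * n ^ k + n ^ k := by ring
  have hsetq : ∀ x : List Bool, x.length = n →
      quant q (fun y => outC t₀ t₁ t₂ (tabC f g h b (μ n) (S n)) x (y ++ a) (S n)) =
      quant q (fun y => outC f g h b x (y ++ a) (S n)) := by
    intro x hx
    refine quant_congr q _ _ (fun y hy => ?_)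
    have hy2 := sum_fst_le q
    refine outC_tabC f g h b ?_ ?_ ?_
    · omega
    · omega
    · rw [List.length_append]; omega
  have hset : {x : List Bool | x.length = n ∧
      (quant q (fun y => outC t₀ t₁ t₂ (tabC f g h b (μ n) (S n)) x (y ++ a) (S n)) = true ↔
        x ∈ L)} =
      {x : List Bool | x.length = n ∧
        (quant q (fun y => outC f g h b x (y ++ a) (S n)) = true ↔ x ∈ L)} := by
    ext x
    simp only [Set.mem_setOf_eq]
    refine and_congr_right (fun hx => ?_)
    rw [hsetq x hx]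
  rw [hset] at hn
  exact hn

end Pool.Agent.H7QC
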