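import Pool.Agent.H7LS.Defs

/-!
# Succinct circuits with counting quantifiers
-/

namespace Pool.Agent.H7QC

open Pool.Agent.PPS Pool.Agent.H7LS

/-- Counting quantifiers. The list `q = [(b₁, τ₁), (b₂, τ₂), …]` stands for the quantifier prefix
`for at least τ₁ of the words y₁ of length b₁, for at least τ₂ of the words y₂ of length b₂, …`,
and `quant q F` is the value of the prefix followed by `F (y₁ y₂ …)`. An existential quantifier
over words of length `b` is `(b, 1)`, a universal one is `(b, 2 ^ b)`. -/
noncomputable def quant : List (ℕ × ℕ) → (List Bool → Bool) → Bool
  | [], F => F []
  | (b, τ) :: q, F => open Classical in decide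
      (τ ≤ {y : List Bool | y.length = b ∧ quant q (fun z => F (y ++ z)) = true}.ncard)

/-- The value of a source of a gate. The first two bits of the word `w` say whether the source
is a gate (`1`), a bit of the input `x` (`01`) or a bit of the word `z` (`00`); the rest of `w`
is its number. The word `V` contains the values of the gates before the gate. -/
def src (V x z w : List Bool) : Bool :=
  bif w.getD 0 false then V.getD (valW (w.drop 2)) false
  else bif w.getD 1 false then x.getD (valW (w.drop 2)) false
  else z.getD (valW (w.drop 2)) false

/-- The value of a gate with the truth table `t` (four bits, for the inputs `00`, `01`, `10`,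
`11`) on the inputs `p` and `q`. -/
def gate (t : List Bool) (p q : Bool) : Bool := t.getD (p.toNat + p.toNat + q.toNat) false

/-- The values of the first `i` gates of the circuit on the inputs `x` and `z`. Gate number `i`
has the truth table `f (b, i)` and the sources `g (b, i)` and `h (b, i)`. -/
def wires (f g h : List Bool → List Bool) (b x z : List Bool) : ℕ → List Bool
  | 0 => []
  | i + 1 => wires f g h b x z i ++ [gate (f (blk b ++ i.bits))
      (src (wires f g h b x z i) x z (g (blk b ++ i.bits)))
      (src (wires f g h b x z i) x z (h (blk b ++ i.bits)))]

/-- The answer of the circuit with `S` gates: the value of the last gate. -/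
def outC (f g h : List Bool → List Bool) (b x z : List Bool) (S : ℕ) : Bool :=
  (wires f g h b x z S).getD (S - 1) false

end Pool.Agent.H7QC
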