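import Pool.Agent.H7QC.SimQ

/-!
# The hard language, against machines with quantifiers
-/

namespace Pool.Agent.H7QC

open Pool.Agent.PPS Pool.Agent.H7LS

variable {α β γ δ σ τ : Type} [Rep α] [Rep β] [Rep γ] [Rep δ] [Rep σ] [Rep τ]

/-- One step of the counting. -/
def cntStepQ (a w : List Bool) (y : CS) (x : List Bool) : CS :=
  bif simQ w x == fam a x then ((incW y.1.1, incW y.1.2), y.2)
  else (y.1, (incW y.2.1, incW y.2.2))

/-- Counting of agreements and disagreements. -/
def cntSQ (n u : ℕ) (a w : List Bool) : CS :=
  (allB n).foldl (fun y x => cntStepQ a w y x)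
    ((List.replicate (n + 2) false, p2W (n - u) (u + 1)),
      (List.replicate (n + 2) false, p2W (n - u) (u + 1)))

@[fun_prop]
theorem LT.cntStepQ' {a w x : α → List Bool} {y : α → CS} (ha : LT a) (hw : LT w)
    (hy : LT y) (hx : LT x) : LT (fun z => cntStepQ (a z) (w z) (y z) (x z)) := by
  unfold cntStepQ; fun_prop

theorem cl_cntStep (a w : List Bool) (y : CS) (x : List Bool) :
    cl (cntStepQ a w y x) = cl y := by
  unfold cntStepQ cl
  cases (simQ w x == fam a x) <;> simp

@[fun_prop]
theorem LT.cntSQ' {n u : α → ℕ} {a w : α → List Bool} (hn : LT n) (hu : LT u) (ha : LT a)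
    (hw : LT w) : LT (fun z => cntSQ (n z) (u z) (a z) (w z)) := by
  have hini : LT (fun z => (((List.replicate (n z + 2) false, p2W (n z - u z) (u z + 1)),
      (List.replicate (n z + 2) false, p2W (n z - u z) (u z + 1))) : CS)) := by fun_prop
  obtain ⟨C, hC0, hC⟩ := hini.exists_size_le
  refine LT.foldAll (L := n) (ini := fun z => (((List.replicate (n z + 2) false,
      p2W (n z - u z) (u z + 1)),
      (List.replicate (n z + 2) false, p2W (n z - u z) (u z + 1))) : CS))
    (s := fun v : α × (CS × List Bool) => cntStepQ (a v.1) (w v.1) v.2.1 v.2.2) hn hini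
    (by fun_prop) (fun z y => cl y ≤ C * size z) (4 * C + 7) ?_ ?_ ?_
  · intro z y hy
    have h1 := size_CS y
    have h2 := size_pos z
    have h3 : (4 * C + 7) * size z = 4 * (C * size z) + 7 * size z := by ring
    omega
  · intro z
    exact (cl_le _).trans (hC z)
  · intro z y x _ hy
    rw [cl_cntStep]; exact hy

/-- The first check. -/
def chk1Q (n u : ℕ) (a w : List Bool) : Bool :=
  leW (cntSQ n u a w).1.1 (cntSQ n u a w).2.2 && leW (cntSQ n u a w).2.1 (cntSQ n u a w).1.2

@[fun_prop]
theorem LT.chk1Q' {n u : α → ℕ} {a w : α → List Bool} (hn : LT n) (hu : LT u) (ha : LT a)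
    (hw : LT w) : LT (fun z => chk1Q (n z) (u z) (a z) (w z)) := by
  unfold chk1Q; fun_prop

theorem cntSQ_eq (n u : ℕ) (hu : u ≤ n) (a w : List Bool) :
    cntSQ n u a w = ((wordN (n + 2) (agree n (simQ w) (fam a)),
      wordN (n + 2) (2 ^ (n - u) + agree n (simQ w) (fam a))),
      (wordN (n + 2) (2 ^ n - agree n (simQ w) (fam a)),
      wordN (n + 2) (2 ^ (n - u) + (2 ^ n - agree n (simQ w) (fam a))))) := by
  have key : ∀ (l : List (List Bool)) (A A' D D' : ℕ),
      l.foldl (fun y x => cntStepQ a w y x) ((wordN (n + 2) A, wordN (n + 2) A'),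
        (wordN (n + 2) D, wordN (n + 2) D')) =
      ((wordN (n + 2) (A + (l.filter (fun x => simQ w x = fam a x)).length),
        wordN (n + 2) (A' + (l.filter (fun x => simQ w x = fam a x)).length)),
        (wordN (n + 2) (D + (l.length - (l.filter (fun x => simQ w x = fam a x)).length)),
        wordN (n + 2) (D' + (l.length - (l.filter (fun x => simQ w x = fam a x)).length)))) := by
    intro l
    induction l with
    | nil => intro A A' D D'; simp
    | cons x l ih =>
      intro A A' D D'
      rw [List.foldl_cons]
      have hle := List.length_filter_le (fun x => decide (simQ w x = fam a x)) l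
      by_cases h : simQ w x = fam a x
      · have h1 : cntStepQ a w ((wordN (n + 2) A, wordN (n + 2) A'),
            (wordN (n + 2) D, wordN (n + 2) D')) x =
            ((wordN (n + 2) (A + 1), wordN (n + 2) (A' + 1)),
            (wordN (n + 2) D, wordN (n + 2) D')) := by
          unfold cntStepQ
          have : (simQ w x == fam a x) = true := by simp [h]
          rw [this]
          simp only [cond_true, incW_wordN]
        rw [h1, ih, List.filter_cons_of_pos (by simp [h])]
        simp only [List.length_cons]
        have e1 : ∀ k, A + 1 + k = A + (k + 1) := by intro k; omega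
        have e2 : ∀ k, A' + 1 + k = A' + (k + 1) := by intro k; omega
        have e3 : ∀ a b : ℕ, a + 1 - (b + 1) = a - b := by intro a b; omega
        rw [e1, e2, e3]
      · have h1 : cntStepQ a w ((wordN (n + 2) A, wordN (n + 2) A'),
            (wordN (n + 2) D, wordN (n + 2) D')) x =
            ((wordN (n + 2) A, wordN (n + 2) A'),
            (wordN (n + 2) (D + 1), wordN (n + 2) (D' + 1))) := by
          unfold cntStepQ
          have : (simQ w x == fam a x) = false := by simp [h]
          rw [this]
          simp only [cond_false, incW_wordN]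
        rw [h1, ih, List.filter_cons_of_neg (by simp [h])]
        simp only [List.length_cons]
        have e1 : D + 1 + (l.length - (l.filter (fun x => simQ w x = fam a x)).length) =
            D + (l.length + 1 - (l.filter (fun x => simQ w x = fam a x)).length) := by omega
        have e2 : D' + 1 + (l.length - (l.filter (fun x => simQ w x = fam a x)).length) =
            D' + (l.length + 1 - (l.filter (fun x => simQ w x = fam a x)).length) := by omega
        rw [e1, e2]
  have hA : ((allB n).filter (fun x => simQ w x = fam a x)).length = agree n (simQ w) (fam a) := by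
    have h1 : (WF n).filter (fun x => simQ w x = fam a x) =
        ((allB n).filter (fun x => decide (simQ w x = fam a x))).toFinset := by
      ext x; simp [WF]
    unfold agree
    rw [h1, List.toFinset_card_of_nodup ((nodup_allB n).filter _)]
  unfold cntSQ
  have e : n - u + 1 + (u + 1) = n + 2 := by omega
  rw [p2W_eq, e, ← wordN_zero, key, hA, length_allB]
  simp

theorem chk1Q_iff (n u : ℕ) (hu : u ≤ n) (a w : List Bool) :
    chk1Q n u a w = true ↔ |cor n (simQ w) (fam a)| ≤ 2 ^ (n - u) := by
  have h1 := agree_le n (simQ w) (fam a)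
  have h2 : 2 ^ (n - u) ≤ 2 ^ n := Nat.pow_le_pow_right (by omega) (by omega)
  have h3 : 2 ^ (n + 2) = 4 * 2 ^ n := by ring
  have h4 : 0 < 2 ^ n := Nat.two_pow_pos n
  unfold chk1Q
  rw [cntSQ_eq n u hu]
  simp only [Bool.and_eq_true]
  rw [leW_iff _ _ (by simp), leW_iff _ _ (by simp), valW_wordN _ _ (by omega),
    valW_wordN _ _ (by omega), valW_wordN _ _ (by omega), valW_wordN _ _ (by omega),
    cor_eq, abs_le]
  generalize agree n (simQ w) (fam a) = A at *
  have h5 : ((2 ^ n - A : ℕ) : ℝ) = 2 ^ n - A := by
    rw [Nat.cast_sub h1]; push_cast; rfl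
  constructor
  · rintro ⟨h6, h7⟩
    have h6' : (A : ℝ) ≤ ((2 ^ (n - u) + (2 ^ n - A) : ℕ) : ℝ) := by exact_mod_cast h6
    have h7' : ((2 ^ n - A : ℕ) : ℝ) ≤ ((2 ^ (n - u) + A : ℕ) : ℝ) := by exact_mod_cast h7
    rw [Nat.cast_add, h5] at h6'
    rw [h5, Nat.cast_add] at h7'
    push_cast at h6' h7'
    constructor <;> linarith
  · rintro ⟨h6, h7⟩
    constructor
    · have : (A : ℝ) ≤ ((2 ^ (n - u) + (2 ^ n - A) : ℕ) : ℝ) := by
        rw [Nat.cast_add, h5]; push_cast; linarith
      exact_mod_cast this
    · have : ((2 ^ n - A : ℕ) : ℝ) ≤ ((2 ^ (n - u) + A : ℕ) : ℝ) := by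
        rw [h5, Nat.cast_add]; push_cast; linarith
      exact_mod_cast this

/-! ### The search for the seedQ -/

/-- The second check. -/
def chk2Q (K j n p : ℕ) (a : List Bool) : Bool :=
  (allB (K * p)).foldl (fun y w => y && chk1Q n (uB j n) a w) true

theorem LT.chk2Q' {n p : α → ℕ} {a : α → List Bool} (K j : ℕ) (hj : 1 ≤ j) (hn : LT n)
    (hp : LT p) (ha : LT a) : LT (fun z => chk2Q K j (n z) (p z) (a z)) := by
  have h0 := LT.uB' j hj hn
  have h3 : LT (fun v : α × (Bool × List Bool) => uB j (n v.1)) :=
    h0.comp (f := fun v : α × (Bool × List Bool) => v.1) (by fun_prop)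
  refine LT.foldAll (L := fun z => K * p z) (ini := fun _ => true)
    (s := fun v : α × (Bool × List Bool) => v.2.1 && chk1Q (n v.1) (uB j (n v.1)) (a v.1) v.2.2)
    (LT.cmul K hp) (by fun_prop) (by fun_prop) (fun _ _ => True) 3 ?_ (fun _ => trivial)
    (fun _ _ _ _ _ => trivial)
  intro z y _
  have h1 := size_bool_le y
  have h2 := size_pos z
  omega

theorem chk2Q_iff (K j n p : ℕ) (a : List Bool) :
    chk2Q K j n p a = true ↔ ∀ w ∈ WF (K * p), |cor n (simQ w) (fam a)| ≤ 2 ^ (n - uB j n) := by
  have key : ∀ (l : List (List Bool)) (y : Bool),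
      l.foldl (fun y w => y && chk1Q n (uB j n) a w) y = true ↔
        y = true ∧ ∀ w ∈ l, chk1Q n (uB j n) a w = true := by
    intro l
    induction l with
    | nil => intro y; simp
    | cons x l ih =>
      intro y
      rw [List.foldl_cons, ih]
      simp only [Bool.and_eq_true, List.mem_cons, forall_eq_or_imp]
      tauto
  unfold chk2Q
  rw [key]
  simp only [true_and, mem_allB, mem_WF, chk1Q_iff n (uB j n) (uB_le j n)]

/-- One step of the search. -/
def seedStepQ (K j n p : ℕ) (y : Option (List Bool)) (a : List Bool) : Option (List Bool) :=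
  bif y.isSome then y else (bif chk2Q K j n p a then some a else none)

/-- The search for the seedQ. -/
def seedQ (K j D n p : ℕ) : List Bool :=
  ((allB (n + D * p)).foldl (fun y a => seedStepQ K j n p y a) none).getD []

theorem LT.seedStepQ' {n p : α → ℕ} {y : α → Option (List Bool)} {a : α → List Bool}
    (K j : ℕ) (hj : 1 ≤ j) (hn : LT n) (hp : LT p) (hy : LT y) (ha : LT a) :
    LT (fun z => seedStepQ K j (n z) (p z) (y z) (a z)) := by
  have h := LT.chk2Q' K j hj hn hp ha
  unfold seedStepQ; fun_prop

theorem LT.seedQ' {n p : α → ℕ} (K j D : ℕ) (hj : 1 ≤ j) (hn : LT n) (hp : LT p) :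
    LT (fun z => seedQ K j D (n z) (p z)) := by
  have hL : LT (fun z => n z + D * p z) := by
    have := LT.cmul D hp
    fun_prop
  obtain ⟨C, hC0, hC⟩ := hL.exists_size_le
  have h : LT (fun z => (allB (n z + D * p z)).foldl
      (fun y a => seedStepQ K j (n z) (p z) y a) none) := by
    have h1 : LT (fun v : α × (Option (List Bool) × List Bool) => n v.1) :=
      hn.comp (f := fun v : α × (Option (List Bool) × List Bool) => v.1) (by fun_prop)
    have h2 : LT (fun v : α × (Option (List Bool) × List Bool) => p v.1) :=
      hp.comp (f := fun v : α × (Option (List Bool) × List Bool) => v.1) (by fun_prop)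
    refine LT.foldAll (L := fun z => n z + D * p z) (ini := fun _ => none)
      (s := fun v : α × (Option (List Bool) × List Bool) =>
        seedStepQ K j (n v.1) (p v.1) v.2.1 v.2.2) hL
      (by fun_prop) (LT.seedStepQ' K j hj h1 h2 (by fun_prop) (by fun_prop))
      (fun z y => ∀ a ∈ y, a.length = n z + D * p z) (2 * C + 3) ?_ ?_ ?_
    · intro z y hy
      have h1 := hC z
      rw [size_nat] at h1
      have h2 := size_pos z
      have h3 : (2 * C + 3) * size z = 2 * (C * size z) + 3 * size z := by ring
      cases y with
      | none => rw [size_none]; omega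
      | some a =>
        have h4 := hy a rfl
        have h5 := size_word_le a
        rw [size_some]
        omega
    · intro z a ha
      cases ha
    · intro z y w hw hy
      unfold seedStepQ
      cases y with
      | some a => exact hy
      | none =>
        simp only [Option.isSome_none, cond_false]
        cases chk2Q K j (n z) (p z) w with
        | false => intro a ha; cases ha
        | true =>
          intro a ha
          simp only [cond_true, Option.mem_some_iff] at ha
          subst ha
          exact hw
  exact h.getD_opt (by fun_prop)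

theorem seedQ_spec (K j D n p : ℕ) (h : ∃ a ∈ WF (n + D * p), ∀ w ∈ WF (K * p),
    |cor n (simQ w) (fam a)| ≤ 2 ^ (n - uB j n)) :
    ∀ w ∈ WF (K * p), |cor n (simQ w) (fam (seedQ K j D n p))| ≤ 2 ^ (n - uB j n) := by
  obtain ⟨a, ha, h⟩ := h
  rw [← chk2Q_iff] at h
  rw [mem_WF] at ha
  have key1 : ∀ (l : List (List Bool)) (a : List Bool),
      l.foldl (fun y a => seedStepQ K j n p y a) (some a) = some a := by
    intro l a
    induction l with
    | nil => rfl
    | cons x l ih => rw [List.foldl_cons]; exact ih
  have key2 : ∀ (l : List (List Bool)), (∃ a ∈ l, chk2Q K j n p a = true) →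
      ∃ a ∈ l, chk2Q K j n p a = true ∧
        l.foldl (fun y a => seedStepQ K j n p y a) none = some a := by
    intro l
    induction l with
    | nil => rintro ⟨a, ha, _⟩; cases ha
    | cons x l ih =>
      rintro ⟨a, ha, hc⟩
      rw [List.foldl_cons]
      by_cases hx : chk2Q K j n p x = true
      · refine ⟨x, by simp, hx, ?_⟩
        have : seedStepQ K j n p none x = some x := by simp [seedStepQ, hx]
        rw [this, key1]
      · have h1 : seedStepQ K j n p none x = none := by simp [seedStepQ, hx]
        rw [h1]
        rcases List.mem_cons.mp ha with rfl | ha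
        · exact absurd hc hx
        · obtain ⟨b, hb, hb1, hb2⟩ := ih ⟨a, ha, hc⟩
          exact ⟨b, by simp [hb], hb1, hb2⟩
  obtain ⟨b, hb, hb1, hb2⟩ := key2 (allB (n + D * p)) ⟨a, mem_allB.mpr ha, h⟩
  have h2 : seedQ K j D n p = b := by unfold seedQ; rw [hb2]; rfl
  rw [h2]
  exact (chk2Q_iff K j n p b).mp hb1

/-- The characteristic function of the hard language, where `p` is a power of the length. -/
def hardFQ (K j D : ℕ) (z : List Bool × ℕ) : Bool := fam (seedQ K j D z.1.length z.2) z.1

theorem LT.hardFQ' (K j D : ℕ) (hj : 1 ≤ j) : LT (hardFQ K j D) := by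
  have h := LT.seedQ' (n := fun z : List Bool × ℕ => z.1.length) (p := fun z => z.2) K j D hj
    (by fun_prop) (by fun_prop)
  have : LT (fun z : List Bool × ℕ => fam (seedQ K j D z.1.length z.2) z.1) := by fun_prop
  exact this

/-- The hard language. -/
def hardLQ (K j D k : ℕ) : Set (List Bool) := {x | hardFQ K j D (x, x.length ^ k) = true}

end Pool.Agent.H7QC
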