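import Pool.Agent.H7QC.DiagQ
import Pool.Agent.H7CA.Lower

/-!
# The lower bound for machines with quantifiers
-/

namespace Pool.Agent.H7QC

open Pool.Agent.PPS Pool.Agent.H7LS Pool.Agent.H7CA Filter Asymptotics

theorem hardLQ_mem (K j D k : ℕ) (hj : 1 ≤ j) (hk : 1 ≤ k) : hardLQ K j D k ∈ SPC k :=
  mem_SPC_of_LT (LT.hardFQ' K j D hj) k hk (fun _ => Iff.rfl)

theorem size_thr_le (q : List (ℕ × ℕ)) :
    size (q.map thr) ≤ 10 * (q.map (fun r => r.1 + 1)).sum + 1 := by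
  induction q with
  | nil => simp [size_nil]
  | cons r q ih =>
    rw [List.map_cons, size_cons, List.map_cons, List.sum_cons]
    have h1 := size_word_le (thr r)
    have h2 : (thr r).length = r.1 + 2 := length_wordN _ _
    omega

/-- For large `n` the seed exists. -/
theorem eventually_seedQ (K j k : ℕ) (hj : 1 ≤ j) (hk : 1 ≤ k) :
    ∀ᶠ n : ℕ in atTop, ∀ w ∈ WF (K * n ^ k),
      |cor n (simQ w) (fam (seedQ K j (2 * (j * (K + 1))) n (n ^ k)))| ≤ 2 ^ (n - uB j n) := by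
  obtain ⟨t₀, ht₀⟩ : ∃ t₀, t₀ = j * (K + 1) := ⟨_, rfl⟩
  have ho : (fun n : ℕ => (t₀ : ℝ) * (2 + 2 * ((t₀ : ℝ) + ((k : ℝ) - 1) *
      ((Nat.log 2 n : ℝ) + 1)))) =o[atTop] (fun n : ℕ => (n : ℝ)) := by
    have h1 := (log_isLittleO.const_mul_left (2 * (t₀ : ℝ) * ((k : ℝ) - 1))).add
      (one_isLittleO.const_mul_left ((t₀ : ℝ) * (2 + 2 * ((t₀ : ℝ) + ((k : ℝ) - 1)))))
    refine h1.congr_left ?_
    intro n
    ring
  filter_upwards [ho.bound (show (0 : ℝ) < 1 / 2 by norm_num), eventually_ge_atTop 1]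
    with n hn1 hn2
  refine seedQ_spec K j _ n (n ^ k) ?_
  have hk' : n ^ k = n ^ (k - 1) * n := by
    rw [← pow_succ]; congr 1; omega
  obtain ⟨t, ht⟩ : ∃ t, t = t₀ * n ^ (k - 1) := ⟨_, rfl⟩
  have h2t : n + 2 * (j * (K + 1)) * n ^ k = n + 2 * t * n := by
    rw [ht, ht₀, hk']; ring
  rw [h2t]
  refine exists_seed' n (uB j n) t (K * n ^ k) hn2 simQ ?_
  -- the numbers
  obtain ⟨b, hb⟩ : ∃ b, b = t₀ + (k - 1) * (Nat.log 2 n + 1) := ⟨_, rfl⟩
  have htb : t ≤ 2 ^ b := by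
    rw [ht, hb, pow_add]
    refine Nat.mul_le_mul t₀.lt_two_pow_self.le ?_
    rw [mul_comm (k - 1), pow_mul]
    exact Nat.pow_le_pow_left (Nat.lt_pow_succ_log_self (by omega) n).le _
  have hnb : t₀ * (2 + 2 * b) < n := by
    have h1 : ((t₀ * (2 + 2 * b) : ℕ) : ℝ) ≤ 1 / 2 * n := by
      refine le_trans ?_ ((le_abs_self _).trans (hn1.trans ?_))
      · rw [hb]
        push_cast [Nat.cast_sub hk]
        exact le_rfl
      · rw [Real.norm_of_nonneg (by positivity)]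
    have h2 : (0 : ℝ) < n := by exact_mod_cast hn2
    have h3 : ((t₀ * (2 + 2 * b) : ℕ) : ℝ) < n := by linarith
    exact_mod_cast h3
  have h1 : 2 ^ (K * n ^ k) * (t ^ (2 * t) * (2 ^ n) ^ t) ≤
      2 ^ (K * n ^ k + (b * (2 * t) + n * t)) := by
    rw [pow_add, pow_add, pow_mul 2 b, pow_mul 2 n]
    exact Nat.mul_le_mul_left _ (Nat.mul_le_mul_right _ (Nat.pow_le_pow_left htb _))
  refine lt_of_le_of_lt h1 ?_
  rw [← pow_mul]
  refine Nat.pow_lt_pow_right (by omega) ?_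
  -- the exponents
  have h2 : n ≤ (n - 2 * uB j n) * j + j := by
    have h3 : 2 * uB j n ≤ n - n / j := by unfold uB; omega
    have h4 := Nat.div_add_mod n j
    have h5 := Nat.mod_lt n (show j > 0 by omega)
    have h6 : n / j ≤ n - 2 * uB j n := by
      have := Nat.div_le_self n j
      omega
    have h7 : j * (n / j) ≤ (n - 2 * uB j n) * j := by
      rw [Nat.mul_comm]; exact Nat.mul_le_mul_right _ h6
    omega
  have h2u : 2 * uB j n ≤ n := by
    have h3 := Nat.sub_le n (n / j)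
    unfold uB
    generalize n - n / j = d at h3
    omega
  have h3 : (n - uB j n) * (2 * t) = n * t + (n - 2 * uB j n) * t := by
    have : n - uB j n + (n - uB j n) = n + (n - 2 * uB j n) := by omega
    calc (n - uB j n) * (2 * t) = (n - uB j n + (n - uB j n)) * t := by ring
      _ = (n + (n - 2 * uB j n)) * t := by rw [this]
      _ = _ := by ring
  rw [h3]
  obtain ⟨v, hv⟩ : ∃ v, v = n - 2 * uB j n := ⟨_, rfl⟩
  rw [← hv] at h2 ⊢
  obtain ⟨N, hN⟩ : ∃ N, N = n ^ (k - 1) := ⟨_, rfl⟩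
  have hNpos : 1 ≤ N := by rw [hN]; exact Nat.one_le_pow _ _ hn2
  rw [hk', ← hN]
  rw [← hN] at ht
  have h4 : (K + 1) * N * n ≤ v * t + t := by
    rw [ht, ht₀]
    calc (K + 1) * N * n ≤ (K + 1) * N * (v * j + j) := Nat.mul_le_mul_left _ h2
      _ = v * (j * (K + 1) * N) + j * (K + 1) * N := by ring
  have h5 : N * (t₀ * (2 + 2 * b)) < N * n := Nat.mul_lt_mul_of_pos_left hnb (by omega)
  have h6 : N * (t₀ * (2 + 2 * b)) = 2 * t + b * (2 * t) := by rw [ht]; ring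
  have h7 : (K + 1) * N * n = K * (N * n) + N * n := by ring
  omega

/-- The lower bound for machines with quantifiers. -/
theorem lower_boundQ (k : ℕ) (hk : 1 ≤ k) (K : ℕ) (c : ℝ) (hc : c < 1 / 2) :
    ∃ L ∈ SPC k, ∀ M : PMach, M.addr ∈ FLIN → M.upd ∈ FLIN → ∀ m s R p : ℕ → ℕ,
      (fun n : ℕ => (m n : ℝ) + s n + R n * (m n + Nat.log 2 n) + p n)
        =o[atTop] (fun n : ℕ => (n : ℝ) ^ k) →
      ∀ᶠ n : ℕ in atTop, ∀ N : ℕ, Nat.log 2 N ≤ p n →
        ∀ (α : List Bool) (q : List (ℕ × ℕ)), α.length ≤ K * n ^ k →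
          (q.map (fun r => r.1 + 1)).sum ≤ K * n ^ k →
        |({x : List Bool | x.length = n ∧
            (quant q (fun y => M.out N (m n) (s n) (R n) x (y ++ α)) = true ↔
              x ∈ L)}.ncard : ℝ) / 2 ^ n - 1 / 2| ≤ 2 ^ (-(c * n)) := by
  -- choice of the constants
  obtain ⟨j, hj1, hj2⟩ : ∃ j : ℕ, 1 ≤ j ∧ 2 * c ≤ 1 - 1 / (j : ℝ) := by
    obtain ⟨j, hj⟩ := exists_nat_gt (1 / (1 - 2 * c))
    have h1 : 0 < 1 - 2 * c := by linarith
    have h2 : 0 < 1 / (1 - 2 * c) := by positivity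
    have h3 : (0 : ℝ) < j := h2.trans hj
    refine ⟨j, by exact_mod_cast h3, ?_⟩
    rw [div_lt_iff₀ h1] at hj
    have h4 : 1 / (j : ℝ) < 1 - 2 * c := by
      rw [div_lt_iff₀ h3]
      linarith
    linarith
  obtain ⟨K1, hK1⟩ : ∃ K1 : ℕ, K1 = 11 * K + 2 := ⟨_, rfl⟩
  refine ⟨hardLQ K1 j (2 * (j * (K1 + 1))) k, hardLQ_mem _ _ _ _ hj1 hk, ?_⟩
  intro M h1 h2 m s R p ho
  obtain ⟨K', hK⟩ := exists_params' M h1 h2 k
  have hpow : (fun n : ℕ => (n : ℝ)) =O[atTop] (fun n : ℕ => (n : ℝ) ^ k) := by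
    refine IsBigO.of_bound 1 ?_
    filter_upwards [eventually_ge_atTop 1] with n hn
    rw [one_mul, Real.norm_of_nonneg (by positivity), Real.norm_of_nonneg (by positivity)]
    have := le_pow_self' n hk
    exact_mod_cast this
  have ho1 : ∀ᶠ n : ℕ in atTop,
      (m n : ℝ) + s n + R n * (m n + Nat.log 2 n) + p n ≤ (n : ℝ) ^ k := by
    filter_upwards [ho.bound (show (0 : ℝ) < 1 by norm_num)] with n hn
    rw [Real.norm_of_nonneg (by positivity), Real.norm_of_nonneg (by positivity),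
      one_mul] at hn
    exact hn
  have ho2 : (fun n : ℕ => (K' : ℝ) * (((m n : ℝ) + s n +
      R n * (m n + Nat.log 2 n) + p n) + Nat.log 2 n + 1)) =o[atTop]
        (fun n : ℕ => (n : ℝ) ^ k) := by
    refine IsLittleO.const_mul_left ?_ _
    exact (ho.add (log_isLittleO.trans_isBigO hpow)).add (one_isLittleO.trans_isBigO hpow)
  filter_upwards [ho1, ho2.bound (show (0 : ℝ) < 1 by norm_num), eventually_ge_atTop 2,
    eventually_seedQ K1 j k hj1 hk] with n hn1 hn2 hn3 hseed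
  intro N hN α q hα hq
  rw [Real.norm_of_nonneg (by positivity), Real.norm_of_nonneg (by positivity),
    one_mul] at hn2
  have hs : s n ≤ n ^ k := by
    have h4 : (0 : ℝ) ≤ (m n : ℝ) := Nat.cast_nonneg _
    have h5 : (0 : ℝ) ≤ R n * (m n + Nat.log 2 n) := by positivity
    have h6 : (0 : ℝ) ≤ (p n : ℝ) := Nat.cast_nonneg _
    have : (s n : ℝ) ≤ (n : ℝ) ^ k := by linarith
    exact_mod_cast this
  obtain ⟨P, hP1, hP2⟩ := hK n N (m n) (s n) (R n) hn3 hs
  have hP1' : size P ≤ n ^ k := by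
    have h3 : (size P : ℝ) ≤ ((K' * (m n + s n + R n * (m n + Nat.log 2 n) +
      Nat.log 2 n + p n + 1) : ℕ) : ℝ) := by
      exact_mod_cast hP1.trans (Nat.mul_le_mul_left _ (by omega))
    push_cast at h3
    have h4 : (size P : ℝ) ≤ (n : ℝ) ^ k := by
      refine h3.trans (le_trans (le_of_eq ?_) hn2)
      ring
    exact_mod_cast h4
  have hn2k : 2 ≤ n ^ k := hn3.trans (Nat.le_self_pow (by omega) n)
  have hqs : size (q.map thr) ≤ 10 * (K * n ^ k) + 1 :=
    (size_thr_le q).trans (by omega)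
  obtain ⟨Q, hQ⟩ : ∃ Q : Params × List (List Bool), Q = (P, q.map thr) := ⟨_, rfl⟩
  have hQs : size Q = size P + size (q.map thr) + 1 := by rw [hQ, size_pair]
  have htot : size Q + α.length ≤ K1 * n ^ k := by
    have : K1 * n ^ k = 11 * (K * n ^ k) + 2 * n ^ k := by rw [hK1]; ring
    omega
  obtain ⟨w, hw⟩ : ∃ w, w = code Q ++ (α ++ List.replicate
    (K1 * n ^ k - size Q - α.length) false) := ⟨_, rfl⟩
  have hwl : w ∈ WF (K1 * n ^ k) := by
    rw [mem_WF, hw]
    have h3 : (code Q).length = size Q := rfl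
    simp only [List.length_append, List.length_replicate, h3]
    omega
  have hcorr := hseed w hwl
  have hsim : ∀ x, simQ w x = quant q (fun y => M.out N (m n) (s n) (R n) x (y ++ α)) := by
    intro x
    have hq1 : Q.1 = P := by rw [hQ]
    have hq2 : Q.2 = q.map thr := by rw [hQ]
    rw [hw, simQ_code, hq1, hq2, simQP_eq _ _ (by
      intro t ht
      rw [List.mem_map] at ht
      obtain ⟨r, _, rfl⟩ := ht
      unfold thr
      rw [length_wordN]
      omega), quantW_thr]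
    congr 1
    funext y
    rw [hP2]
    unfold PMach.out
    rw [← List.append_assoc, mem_pad]
  obtain ⟨a, ha⟩ : ∃ a, a = seedQ K1 j (2 * (j * (K1 + 1))) n (n ^ k) := ⟨_, rfl⟩
  rw [← ha] at hcorr
  have hmem : ∀ x : List Bool, x.length = n →
      (x ∈ hardLQ K1 j (2 * (j * (K1 + 1))) k ↔ fam a x = true) := by
    intro x hx
    show hardFQ K1 j (2 * (j * (K1 + 1))) (x, x.length ^ k) = true ↔ _
    unfold hardFQ
    simp only
    rw [hx, ha]
  have hset : {x : List Bool | x.length = n ∧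
      (quant q (fun y => M.out N (m n) (s n) (R n) x (y ++ α)) = true ↔
        x ∈ hardLQ K1 j (2 * (j * (K1 + 1))) k)} =
      (((WF n).filter (fun x => simQ w x = fam a x) : Finset (List Bool)) :
        Set (List Bool)) := by
    ext x
    simp only [Set.mem_ofPred_eq, Finset.coe_filter, mem_WF, hsim]
    constructor
    · rintro ⟨h3, h4⟩
      refine ⟨h3, ?_⟩
      rw [Bool.eq_iff_iff, h4]
      exact hmem x h3
    · rintro ⟨h3, h4⟩
      refine ⟨h3, ?_⟩
      rw [h4]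
      exact (hmem x h3).symm
  rw [hset, Set.ncard_coe_finset]
  have hag : (((WF n).filter (fun x => simQ w x = fam a x)).card : ℝ) =
      (cor n (simQ w) (fam a) + 2 ^ n) / 2 := by
    rw [cor_eq]
    unfold agree
    ring
  rw [hag]
  have e1 : (cor n (simQ w) (fam a) + 2 ^ n) / 2 / 2 ^ n - 1 / 2 =
      cor n (simQ w) (fam a) / (2 * 2 ^ n) := by
    field_simp
    ring
  rw [e1, abs_div, abs_of_pos (show (0 : ℝ) < 2 * 2 ^ n by positivity),
    div_le_iff₀ (by positivity)]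
  refine hcorr.trans ?_
  have hu4 := uB_le j n
  have e2 : (2 : ℝ) ^ (n - uB j n) = 2 ^ (-((uB j n : ℝ) + 1)) * (2 * 2 ^ n) := by
    rw [← pow_succ', ← Real.rpow_natCast 2 (n - uB j n), ← Real.rpow_natCast 2 (n + 1),
      ← Real.rpow_add (by norm_num)]
    congr 1
    rw [Nat.cast_sub hu4]
    push_cast
    ring
  rw [e2]
  refine mul_le_mul_of_nonneg_right ?_ (by positivity)
  refine Real.rpow_le_rpow_of_exponent_le (by norm_num) ?_
  have h3 : c * n ≤ uB j n + 1 := by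
    have h4 : n - n / j ≤ 2 * uB j n + 1 := by unfold uB; omega
    have h5 : ((n / j : ℕ) : ℝ) ≤ (n : ℝ) / j := Nat.cast_div_le
    have h6 : (n : ℝ) - (n : ℝ) / j ≤ 2 * uB j n + 1 := by
      have h7 : ((n - n / j : ℕ) : ℝ) ≤ 2 * uB j n + 1 := by exact_mod_cast h4
      rw [Nat.cast_sub (Nat.div_le_self _ _)] at h7
      linarith
    have h8 : 2 * c * n ≤ (1 - 1 / (j : ℝ)) * n :=
      mul_le_mul_of_nonneg_right hj2 (by positivity)
    have h9 : (1 - 1 / (j : ℝ)) * n = (n : ℝ) - (n : ℝ) / j := by ring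
    linarith
  linarith

/-- The language `L` is hard on the average for parallel machines with quantifiers. -/
def HardQ (k K : ℕ) (c : ℝ) (L : Set (List Bool)) : Prop :=
  ∀ M : PMach, M.addr ∈ FLIN → M.upd ∈ FLIN → ∀ m s R p : ℕ → ℕ,
    (fun n : ℕ => (m n : ℝ) + s n + R n * (m n + Nat.log 2 n) + p n)
      =o[atTop] (fun n : ℕ => (n : ℝ) ^ k) →
    ∀ᶠ n : ℕ in atTop, ∀ N : ℕ, Nat.log 2 N ≤ p n →
      ∀ (α : List Bool) (q : List (ℕ × ℕ)), α.length ≤ K * n ^ k →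
        (q.map (fun r => r.1 + 1)).sum ≤ K * n ^ k →
      |({x : List Bool | x.length = n ∧
          (quant q (fun y => M.out N (m n) (s n) (R n) x (y ++ α)) = true ↔
            x ∈ L)}.ncard : ℝ) / 2 ^ n - 1 / 2| ≤ 2 ^ (-(c * n))

theorem exists_hardQ (k : ℕ) (hk : 1 ≤ k) (K : ℕ) (c : ℝ) (hc : c < 1 / 2) :
    ∃ L ∈ SPC k, HardQ k K c L := lower_boundQ k hk K c hc

end Pool.Agent.H7QC
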