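import Pool.Agent.H7QC.Defs
import Pool.Agent.H7LS.Diag

/-!
# Evaluation of counting quantifiers by an odometer
-/

namespace Pool.Agent.H7QC

open Pool.Agent.PPS Pool.Agent.H7LS

/-- A block of the odometer: threshold, current word and counter. -/
abbrev QB := List Bool × (List Bool × List Bool)

/-- Pass a carry through a block. -/
def qStep (B : QB) (S : List QB × Option Bool) : List QB × Option Bool :=
  bif S.2.isSome then
    (bif B.2.1.all (fun b => b) then
      ((B.1, (incW B.2.1, List.replicate B.2.2.length false)) :: S.1,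
        some (leW B.1 (bif S.2.getD false then incW B.2.2 else B.2.2)))
    else ((B.1, (incW B.2.1, bif S.2.getD false then incW B.2.2 else B.2.2)) :: S.1, none))
  else (B :: S.1, none)

/-- Pass the value `v` through all blocks. -/
def prop (l : List QB) (v : Bool) : List QB × Option Bool := l.foldr qStep ([], some v)

/-- The current word of the odometer. -/
def ysQ (l : List QB) : List Bool := l.foldr (fun B y => B.2.1 ++ y) []

/-- One tick of the odometer. -/
def tick (F : List Bool → Bool) (S : List QB × Option Bool) : List QB × Option Bool :=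
  prop S.1 (F (ysQ S.1))

theorem tick_cons (F : List Bool → Bool) (B : QB) (l : List QB) (o o' : Option Bool) :
    tick F (B :: l, o) = qStep B (tick (fun z => F (B.2.1 ++ z)) (l, o')) := rfl

/-- The initial block for a threshold. -/
def iniB (τ : List Bool) : QB :=
  (τ, (List.replicate (τ.length - 2) false, List.replicate τ.length false))

/-- The initial state of the odometer. -/
def iniQ (q : List (List Bool)) : List QB := q.map iniB

/-- The value of the quantifier prefix with thresholds given by words. -/
def quantW : List (List Bool) → (List Bool → Bool) → Bool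
  | [], F => F []
  | τ :: q, F => decide (valW τ ≤ ((Finset.range (2 ^ (τ.length - 2))).filter
      (fun t => quantW q (fun z => F (wordN (τ.length - 2) t ++ z)) = true)).card)

/-- The number of ticks. -/
def numQ (q : List (List Bool)) : ℕ := (q.map (fun τ => τ.length - 2)).sum

theorem all_wordN (b j : ℕ) (hj : j < 2 ^ b) :
    (wordN b j).all (fun x => x) = true ↔ j + 1 = 2 ^ b := by
  induction b generalizing j with
  | zero => simp [wordN] at hj ⊢; omega
  | succ b ih =>
    have h1 : j / 2 < 2 ^ b := by rw [pow_succ] at hj; omega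
    rw [wordN, List.all_cons, Bool.and_eq_true, ih _ h1, decide_eq_true_iff, pow_succ]
    omega

theorem numQ_cons (τ : List Bool) (q : List (List Bool)) :
    numQ (τ :: q) = τ.length - 2 + numQ q := by
  simp [numQ]

/-- The ticks of the inner blocks. -/
theorem inner_ticks (q : List (List Bool)) (F : List Bool → Bool) (B : QB)
    (h1 : ∀ (G : List Bool → Bool) (o : Option Bool),
      (tick G)^[2 ^ numQ q] (iniQ q, o) = (iniQ q, some (quantW q G)))
    (h2 : ∀ (G : List Bool → Bool) (o : Option Bool) (k : ℕ), 1 ≤ k → k < 2 ^ numQ q →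
      ((tick G)^[k] (iniQ q, o)).2 = none) (o : Option Bool) :
    (tick F)^[2 ^ numQ q] (B :: iniQ q, o) =
      qStep B (iniQ q, some (quantW q (fun z => F (B.2.1 ++ z)))) ∧
    ∀ k, 1 ≤ k → k < 2 ^ numQ q → ((tick F)^[k] (B :: iniQ q, o)).2 = none := by
  obtain ⟨G, hG⟩ : ∃ G : List Bool → Bool, G = fun z => F (B.2.1 ++ z) := ⟨_, rfl⟩
  have key : ∀ k, k < 2 ^ numQ q → (tick F)^[k] (B :: iniQ q, o) =
      (B :: ((tick G)^[k] (iniQ q, o)).1, if k = 0 then o else none) := by
    intro k
    induction k with
    | zero => intro _; rfl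
    | succ k ih =>
      intro hk
      have h3 := h2 G o (k + 1) (by omega) hk
      rw [Function.iterate_succ_apply'] at h3
      rw [Function.iterate_succ_apply', ih (by omega), Function.iterate_succ_apply',
        if_neg (show ¬ (k + 1 = 0) by omega)]
      obtain ⟨S, hS⟩ : ∃ S, S = (tick G)^[k] (iniQ q, o) := ⟨_, rfl⟩
      rw [← hS] at h3 ⊢
      rw [tick_cons F B S.1 _ S.2, ← hG]
      have e : ((S.1, S.2) : List QB × Option Bool) = S := rfl
      rw [e]
      unfold qStep
      rw [h3]
      rfl
  have hpos : 1 ≤ 2 ^ numQ q := Nat.one_le_two_pow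
  refine ⟨?_, ?_⟩
  · obtain ⟨N, hN⟩ : ∃ N, 2 ^ numQ q = N + 1 := ⟨2 ^ numQ q - 1, by omega⟩
    have h3 := h1 G o
    rw [hN, Function.iterate_succ_apply'] at h3
    rw [hN, Function.iterate_succ_apply', key N (by omega)]
    obtain ⟨S, hS⟩ : ∃ S, S = (tick G)^[N] (iniQ q, o) := ⟨_, rfl⟩
    rw [← hS] at h3 ⊢
    rw [tick_cons F B S.1 _ S.2, ← hG]
    have e : ((S.1, S.2) : List QB × Option Bool) = S := rfl
    rw [e, h3]
  · intro k hk1 hk2
    rw [key k hk2]
    simp only
    rw [if_neg (by omega)]

theorem qStep_some (τ y c : List Bool) (l : List QB) (u : Bool) :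
    qStep (τ, (y, c)) (l, some u) = bif y.all (fun b => b) then
      ((τ, (incW y, List.replicate c.length false)) :: l,
        some (leW τ (bif u then incW c else c)))
    else ((τ, (incW y, bif u then incW c else c)) :: l, none) := rfl

/-- The odometer evaluates the quantifiers. -/
theorem ticks (q : List (List Bool)) (hq : ∀ τ ∈ q, 2 ≤ τ.length) :
    (∀ (F : List Bool → Bool) (o : Option Bool),
      (tick F)^[2 ^ numQ q] (iniQ q, o) = (iniQ q, some (quantW q F))) ∧
    (∀ (F : List Bool → Bool) (o : Option Bool) (k : ℕ), 1 ≤ k → k < 2 ^ numQ q →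
      ((tick F)^[k] (iniQ q, o)).2 = none) := by
  induction q with
  | nil =>
    refine ⟨fun F o => rfl, fun F o k h1 h2 => ?_⟩
    have : 2 ^ numQ [] = 1 := rfl
    omega
  | cons τ q ih =>
    obtain ⟨h1, h2⟩ := ih (fun σ hσ => hq σ (List.mem_cons_of_mem _ hσ))
    have hτ := hq τ List.mem_cons_self
    obtain ⟨b, hb⟩ : ∃ b, b = τ.length - 2 := ⟨_, rfl⟩
    have hτb : τ.length = b + 2 := by omega
    obtain ⟨N, hN⟩ : ∃ N, N = 2 ^ numQ q := ⟨_, rfl⟩
    have hNpos : 1 ≤ N := by rw [hN]; exact Nat.one_le_two_pow
    have hnum : 2 ^ numQ (τ :: q) = 2 ^ b * N := by rw [numQ_cons, ← hb, pow_add, hN]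
    -- the number of successes
    obtain ⟨C, hC⟩ : ∃ C : (List Bool → Bool) → ℕ → ℕ, C = fun F j =>
      ((Finset.range j).filter
        (fun t => quantW q (fun z => F (wordN b t ++ z)) = true)).card := ⟨_, rfl⟩
    have hC0 : ∀ F, C F 0 = 0 := by intro F; rw [hC]; rfl
    have hCs : ∀ F j, C F (j + 1) = C F j +
        (if quantW q (fun z => F (wordN b j ++ z)) = true then 1 else 0) := by
      intro F j
      rw [hC]
      simp only
      rw [Finset.range_add_one, Finset.filter_insert]
      by_cases h : quantW q (fun z => F (wordN b j ++ z)) = true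
      · rw [if_pos h, if_pos h, Finset.card_insert_of_notMem (by simp)]
      · rw [if_neg h, if_neg h]; rfl
    have hCle : ∀ F j, C F j ≤ j := by
      intro F j
      induction j with
      | zero => rw [hC0]
      | succ j ihj => rw [hCs]; split_ifs <;> omega
    have hqW : ∀ F, quantW (τ :: q) F = decide (valW τ ≤ C F (2 ^ b)) := by
      intro F
      rw [hC]
      simp only [quantW, ← hb]
    have hini : iniQ (τ :: q) = (τ, (wordN b 0, wordN (b + 2) 0)) :: iniQ q := by
      unfold iniQ iniB
      rw [List.map_cons, ← hb, wordN_zero, wordN_zero, hτb]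
    -- one block of ticks
    have hblock : ∀ (F : List Bool → Bool) (j : ℕ) (o : Option Bool), j < 2 ^ b →
        (tick F)^[N] ((τ, (wordN b j, wordN (b + 2) (C F j))) :: iniQ q, o) =
          bif decide (j + 1 = 2 ^ b) then (iniQ (τ :: q), some (quantW (τ :: q) F))
          else ((τ, (wordN b (j + 1), wordN (b + 2) (C F (j + 1)))) :: iniQ q, none) := by
      intro F j o hj
      have h3 := (inner_ticks q F (τ, (wordN b j, wordN (b + 2) (C F j))) h1 h2 o).1
      rw [hN, h3, qStep_some]
      have h4 : (bif quantW q (fun z => F (wordN b j ++ z)) then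
          incW (wordN (b + 2) (C F j)) else wordN (b + 2) (C F j)) =
          wordN (b + 2) (C F (j + 1)) := by
        rw [hCs]
        cases h : quantW q (fun z => F (wordN b j ++ z)) with
        | true => rw [cond_true, if_pos rfl, incW_wordN]
        | false => rw [cond_false, if_neg (by simp)]; rfl
      have h4' : (bif quantW q (fun z => F ((τ, (wordN b j, wordN (b + 2) (C F j))).2.1 ++ z))
          then incW (wordN (b + 2) (C F j)) else wordN (b + 2) (C F j)) =
          wordN (b + 2) (C F (j + 1)) := h4
      rw [h4', incW_wordN]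
      have h5 : (wordN b j).all (fun x => x) = decide (j + 1 = 2 ^ b) := by
        rw [Bool.eq_iff_iff, all_wordN b j hj, decide_eq_true_iff]
      rw [h5]
      by_cases h6 : j + 1 = 2 ^ b
      · rw [decide_eq_true h6, cond_true, cond_true, hini, hqW, h6, length_wordN]
        have h7 : wordN b (2 ^ b) = wordN b 0 := by
          have := wordN_add_pow b 0
          rwa [Nat.add_zero] at this
        have h8 : leW τ (wordN (b + 2) (C F (2 ^ b))) = decide (valW τ ≤ C F (2 ^ b)) := by
          rw [Bool.eq_iff_iff, leW_iff _ _ (by rw [hτb, length_wordN]), valW_wordN,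
            decide_eq_true_iff]
          have h9 := hCle F (2 ^ b)
          have h10 : 2 ^ (b + 2) = 4 * 2 ^ b := by ring
          have h11 : 1 ≤ 2 ^ b := Nat.one_le_two_pow
          omega
        rw [h7, h8, wordN_zero (b + 2)]
      · rw [decide_eq_false h6, cond_false, cond_false]
    -- several blocks of ticks
    have hblocks : ∀ (F : List Bool → Bool) (o : Option Bool) (j : ℕ), j < 2 ^ b →
        ∃ o', (tick F)^[j * N] (iniQ (τ :: q), o) =
          ((τ, (wordN b j, wordN (b + 2) (C F j))) :: iniQ q, o') ∧ (1 ≤ j → o' = none) := by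
      intro F o j
      induction j with
      | zero =>
        intro _
        refine ⟨o, ?_, by omega⟩
        rw [Nat.zero_mul, hC0, hini]
        rfl
      | succ j ihj =>
        intro hj
        obtain ⟨o', h3, _⟩ := ihj (by omega)
        refine ⟨none, ?_, fun _ => rfl⟩
        have e : (j + 1) * N = N + j * N := by ring
        rw [e, Function.iterate_add_apply, h3, hblock F j o' (by omega),
          decide_eq_false (by omega), cond_false]
    refine ⟨?_, ?_⟩
    · intro F o
      obtain ⟨m, hm⟩ : ∃ m, 2 ^ b = m + 1 := ⟨2 ^ b - 1, by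
        have : 1 ≤ 2 ^ b := Nat.one_le_two_pow
        omega⟩
      obtain ⟨o', h3, _⟩ := hblocks F o m (by omega)
      have e : 2 ^ b * N = N + m * N := by rw [hm]; ring
      rw [hnum, e, Function.iterate_add_apply, h3, hblock F m o' (by omega),
        decide_eq_true hm.symm, cond_true]
    · intro F o k hk1 hk2
      rw [hnum] at hk2
      obtain ⟨j, hj⟩ : ∃ j, j = k / N := ⟨_, rfl⟩
      obtain ⟨i, hi⟩ : ∃ i, i = k % N := ⟨_, rfl⟩
      have hk : k = i + j * N := by
        rw [hi, hj, Nat.mul_comm]; exact (Nat.mod_add_div k N).symm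
      have hiN : i < N := by rw [hi]; exact Nat.mod_lt _ (by omega)
      have hjb : j < 2 ^ b := by
        rw [hj, Nat.div_lt_iff_lt_mul (by omega)]; exact hk2
      obtain ⟨o', h3, h4⟩ := hblocks F o j hjb
      rw [hk, Function.iterate_add_apply, h3]
      rcases Nat.eq_zero_or_pos i with h5 | h5
      · rw [h5]
        show o' = none
        refine h4 ?_
        rcases Nat.eq_zero_or_pos j with h6 | h6
        · rw [h5, h6] at hk; omega
        · exact h6
      · rw [hN] at hiN
        exact (inner_ticks q F (τ, (wordN b j, wordN (b + 2) (C F j))) h1 h2 o').2 i h5 hiN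

/-! ### The two forms of the quantifiers -/

/-- The threshold word of a quantifier. -/
def thr (r : ℕ × ℕ) : List Bool := wordN (r.1 + 2) (min r.2 (2 ^ r.1 + 1))

theorem ncard_words (b : ℕ) (P : List Bool → Prop) [DecidablePred P] :
    {y : List Bool | y.length = b ∧ P y}.ncard =
      ((Finset.range (2 ^ b)).filter (fun t => P (wordN b t))).card := by
  have h1 : {y : List Bool | y.length = b ∧ P y} =
      (((Finset.range (2 ^ b)).filter (fun t => P (wordN b t))).image (wordN b) :
        Finset (List Bool)) := by
    ext y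
    simp only [Set.mem_setOf_eq, Finset.coe_image, Finset.coe_filter, Finset.mem_range,
      Set.mem_image]
    constructor
    · rintro ⟨h1, h2⟩
      have h3 : wordN b (valW y) = y := by rw [← h1, wordN_valW]
      exact ⟨valW y, ⟨by rw [← h1]; exact valW_lt y, by rw [h3]; exact h2⟩, h3⟩
    · rintro ⟨t, ⟨h1, h2⟩, rfl⟩
      exact ⟨length_wordN _ _, h2⟩
  rw [h1, Set.ncard_coe_finset, Finset.card_image_of_injOn]
  intro s hs t ht hst
  simp only [Finset.coe_filter, Finset.mem_range, Set.mem_setOf_eq] at hs ht
  exact wordN_inj hs.1 ht.1 hst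

theorem quantW_thr (q : List (ℕ × ℕ)) : ∀ F : List Bool → Bool,
    quantW (q.map thr) F = quant q F := by
  classical
  induction q with
  | nil => intro F; rfl
  | cons r q ih =>
    intro F
    obtain ⟨b, τ⟩ := r
    have h1 : (thr (b, τ)).length - 2 = b := by
      unfold thr
      rw [length_wordN]
      rfl
    have h2 : valW (thr (b, τ)) = min τ (2 ^ b + 1) := by
      unfold thr
      rw [valW_wordN]
      have h10 : 2 ^ (b + 2) = 4 * 2 ^ b := by ring
      have h11 : 1 ≤ 2 ^ b := Nat.one_le_two_pow
      have h12 := Nat.min_le_right τ (2 ^ b + 1)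
      simp only
      omega
    rw [List.map_cons, quantW, quant, h1, h2]
    simp only [ih]
    rw [ncard_words b (fun y => quant q (fun z => F (y ++ z)) = true)]
    obtain ⟨C, hC⟩ : ∃ C, C = ((Finset.range (2 ^ b)).filter
      (fun t => quant q (fun z => F (wordN b t ++ z)) = true)).card := ⟨_, rfl⟩
    have hCle : C ≤ 2 ^ b := by
      rw [hC]
      exact (Finset.card_filter_le _ _).trans (Finset.card_range _).le
    rw [← hC, Bool.eq_iff_iff, decide_eq_true_iff, decide_eq_true_iff]
    omega

end Pool.Agent.H7QC
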