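import Pool.Agent.H7QC.Quant
import Pool.Agent.H7LS.Final

/-!
# The universal simulation with quantifiers
-/

namespace Pool.Agent.H7QC

open Pool.Agent.PPS Pool.Agent.H7LS

variable {α β γ δ σ τ : Type} [Rep α] [Rep β] [Rep γ] [Rep δ] [Rep σ] [Rep τ]

@[fun_prop]
theorem LT.qStep' {B : α → QB} {S : α → List QB × Option Bool} (hB : LT B) (hS : LT S) :
    LT (fun a => qStep (B a) (S a)) := by
  unfold qStep
  fun_prop

/-- The total length of the blocks. -/
def tl (l : List QB) : ℕ :=
  (l.map (fun B => B.1.length + B.2.1.length + B.2.2.length + 1)).sum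

theorem tl_nil : tl [] = 0 := rfl

theorem tl_cons (B : QB) (l : List QB) :
    tl (B :: l) = B.1.length + B.2.1.length + B.2.2.length + 1 + tl l := by
  simp [tl]

theorem size_QB_le (l : List QB) : size l ≤ 10 * tl l + 1 := by
  induction l with
  | nil => simp [size_nil]
  | cons B l ih =>
    obtain ⟨a, b, c⟩ := B
    rw [size_cons, tl_cons, size_pair, size_pair]
    have h1 := size_word_le a
    have h2 := size_word_le b
    have h3 := size_word_le c
    simp only
    omega

theorem tl_le (l : List QB) : tl l ≤ size l := by
  induction l with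
  | nil => simp [tl_nil]
  | cons B l ih =>
    obtain ⟨a, b, c⟩ := B
    rw [size_cons, tl_cons, size_pair, size_pair]
    have h1 := le_size_word a
    have h2 := le_size_word b
    have h3 := le_size_word c
    simp only
    omega

theorem tl_qStep (B : QB) (S : List QB × Option Bool) :
    tl (qStep B S).1 = tl (B :: S.1) := by
  obtain ⟨a, b, c⟩ := B
  obtain ⟨l, o⟩ := S
  cases o with
  | none => rfl
  | some u =>
    rw [qStep_some]
    cases b.all (fun x => x) <;> cases u <;> simp [tl_cons]

theorem tl_prop (l : List QB) (v : Bool) : tl (prop l v).1 = tl l := by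
  induction l with
  | nil => rfl
  | cons B l ih =>
    have : prop (B :: l) v = qStep B (prop l v) := rfl
    rw [this, tl_qStep, tl_cons, tl_cons, ih]

theorem size_opt_le (o : Option Bool) : size o ≤ 5 := by
  cases o with
  | none => rw [size_none]; omega
  | some b => rw [size_some]; have := size_bool_le b; omega

theorem tl_drop (l : List QB) (k : ℕ) : tl (l.drop k) ≤ tl l := by
  induction l generalizing k with
  | nil => simp
  | cons B l ih =>
    cases k with
    | zero => exact le_rfl
    | succ k =>
      rw [List.drop_succ_cons, tl_cons]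
      have := ih k
      omega

@[fun_prop]
theorem LT.prop' {l : α → List QB} {v : α → Bool} (hl : LT l) (hv : LT v) :
    LT (fun a => prop (l a) (v a)) := by
  obtain ⟨C, hC0, hC⟩ := hl.exists_size_le
  refine LT.foldr (ini := fun a => (([] : List QB), some (v a)))
    (s := fun z : α × (QB × (List QB × Option Bool)) => qStep z.2.1 z.2.2) hl (by fun_prop)
    (by fun_prop) (10 * C + 8) ?_
  intro a k
  show size (prop ((l a).drop k) (v a)) ≤ _
  obtain ⟨S, hS⟩ : ∃ S, S = prop ((l a).drop k) (v a) := ⟨_, rfl⟩
  have h1 := tl_prop ((l a).drop k) (v a)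
  have h2 := tl_drop (l a) k
  have h3 := tl_le (l a)
  have h4 := hC a
  have h5 := size_pos a
  rw [← hS] at h1 ⊢
  obtain ⟨S1, S2⟩ := S
  rw [size_pair]
  have h6 := size_QB_le S1
  have h7 := size_opt_le S2
  simp only at h1
  have h8 : (10 * C + 8) * size a = 10 * (C * size a) + 8 * size a := by ring
  omega

theorem length_ysQ_le (l : List QB) : (ysQ l).length ≤ tl l := by
  induction l with
  | nil => simp [ysQ]
  | cons B l ih =>
    have : ysQ (B :: l) = B.2.1 ++ ysQ l := rfl
    rw [this, List.length_append, tl_cons]
    omega

@[fun_prop]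
theorem LT.ysQ' {l : α → List QB} (hl : LT l) : LT (fun a => ysQ (l a)) := by
  obtain ⟨C, hC0, hC⟩ := hl.exists_size_le
  refine LT.foldr (ini := fun _ => ([] : List Bool))
    (s := fun z : α × (QB × List Bool) => z.2.1.2.1 ++ z.2.2) hl (by fun_prop)
    (by fun_prop) (4 * C + 1) ?_
  intro a k
  show size (ysQ ((l a).drop k)) ≤ _
  have h1 := length_ysQ_le ((l a).drop k)
  have h2 := tl_drop (l a) k
  have h3 := tl_le (l a)
  have h4 := hC a
  have h5 := size_pos a
  have h6 := size_word_le (ysQ ((l a).drop k))
  have h8 : (4 * C + 1) * size a = 4 * (C * size a) + size a := by ring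
  omega

@[fun_prop]
theorem LT.iniB' {t : α → List Bool} (ht : LT t) : LT (fun a => iniB (t a)) := by
  unfold iniB
  fun_prop

theorem size_iniB_le (t : List Bool) : size (iniB t) ≤ 10 * size t := by
  unfold iniB
  rw [size_pair, size_pair]
  have h1 := size_word_le (List.replicate (t.length - 2) false)
  have h2 := size_word_le (List.replicate t.length false)
  have h3 := le_size_word t
  have h4 := size_pos t
  rw [List.length_replicate] at h1 h2
  omega

@[fun_prop]
theorem LT.iniQ' {q : α → List (List Bool)} (hq : LT q) : LT (fun a => iniQ (q a)) := by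
  obtain ⟨C, hC0, hC⟩ := hq.exists_size_le
  refine LT.map' (f := fun z : α × List Bool => iniB z.2) hq (by fun_prop) (10 * C) ?_
  intro a
  refine (size_map_le (c := 10) (by omega) (fun b _ => size_iniB_le b)).trans ?_
  rw [Nat.mul_assoc]
  exact Nat.mul_le_mul_left _ (hC a)

/-- The simulation of the quantified machine. -/
def simQP (P : Params) (q : List (List Bool)) (x α : List Bool) : Bool :=
  (((allB (ysQ (iniQ q)).length).foldl
    (fun S _ => tick (fun y => simP P x (y ++ α)) S) (iniQ q, none)).2).getD false

@[fun_prop]
theorem LT.simQP' {P : α → Params} {q : α → List (List Bool)} {x α' : α → List Bool}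
    (hP : LT P) (hq : LT q) (hx : LT x) (hα : LT α') :
    LT (fun a => simQP (P a) (q a) (x a) (α' a)) := by
  have hini : LT (fun a => ((iniQ (q a), none) : List QB × Option Bool)) := by fun_prop
  have hL : LT (fun a => (ysQ (iniQ (q a))).length) := by fun_prop
  obtain ⟨C, hC0, hC⟩ := hini.exists_size_le
  have hs : LT (fun z : α × ((List QB × Option Bool) × List Bool) =>
      prop z.2.1.1 (simP (P z.1) (x z.1) (ysQ z.2.1.1 ++ α' z.1))) := by fun_prop
  have key := LT.foldAll (L := fun a => (ysQ (iniQ (q a))).length)
    (ini := fun a => ((iniQ (q a), none) : List QB × Option Bool))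
    (s := fun z : α × ((List QB × Option Bool) × List Bool) =>
      prop z.2.1.1 (simP (P z.1) (x z.1) (ysQ z.2.1.1 ++ α' z.1))) hL hini hs
    (fun a S => tl S.1 ≤ C * size a) (10 * C + 8) ?_ ?_ ?_
  · have h2 := (LT.snd' key)
    exact h2.getD_opt (by fun_prop)
  · intro a S hS
    obtain ⟨S1, S2⟩ := S
    rw [size_pair]
    have h6 := size_QB_le S1
    have h7 := size_opt_le S2
    have h5 := size_pos a
    simp only at hS
    have h8 : (10 * C + 8) * size a = 10 * (C * size a) + 8 * size a := by ring
    omega
  · intro a
    have h1 := hC a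
    rw [size_pair] at h1
    have h3 := tl_le (iniQ (q a))
    simp only
    omega
  · intro a S w _ hS
    simp only
    rw [tl_prop]
    exact hS

/-- The simulation with the parameters, the quantifiers and the advice given by one word. -/
def simQ (w x : List Bool) : Bool :=
  simQP (DRep.dec (decodeD w) : Params × List (List Bool)).1
    (DRep.dec (decodeD w) : Params × List (List Bool)).2 x (w.drop (size (decodeD w)))

@[fun_prop]
theorem LT.simQ' {w x : α → List Bool} (hw : LT w) (hx : LT x) :
    LT (fun a => simQ (w a) (x a)) := by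
  unfold simQ; fun_prop

theorem simQ_code (P : Params × List (List Bool)) (α : List Bool) (k : ℕ) (x : List Bool) :
    simQ (code P ++ (α ++ List.replicate k false)) x =
      simQP P.1 P.2 x (α ++ List.replicate k false) := by
  have h1 : decodeD (code P ++ (α ++ List.replicate k false)) = Rep.rep P := by
    unfold decodeD
    have := decStack_code_append (Rep.rep P) (α ++ List.replicate k false)
    have h2 : (Rep.rep P).code = code P := rfl
    rw [h2] at this
    rw [this]
    rfl
  unfold simQ
  rw [h1, DRep.dec_rep]
  have h3 : (code P ++ (α ++ List.replicate k false)).drop (size (Rep.rep P : D)) =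
      α ++ List.replicate k false := List.drop_left' rfl
  rw [h3]

theorem foldl_const_iterate {κ ι : Type} (f : κ → κ) (l : List ι) (y : κ) :
    l.foldl (fun y _ => f y) y = f^[l.length] y := by
  induction l generalizing y with
  | nil => rfl
  | cons a l ih => rw [List.foldl_cons, ih, List.length_cons, Function.iterate_succ_apply]

theorem length_ysQ_iniQ (q : List (List Bool)) : (ysQ (iniQ q)).length = numQ q := by
  induction q with
  | nil => rfl
  | cons t q ih =>
    have : ysQ (iniQ (t :: q)) = (iniB t).2.1 ++ ysQ (iniQ q) := rfl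
    rw [this, List.length_append, ih, numQ_cons]
    simp [iniB]

theorem simQP_eq (P : Params) (q : List (List Bool)) (hq : ∀ t ∈ q, 2 ≤ t.length)
    (x α : List Bool) : simQP P q x α = quantW q (fun y => simP P x (y ++ α)) := by
  unfold simQP
  rw [foldl_const_iterate, length_allB, length_ysQ_iniQ, (ticks q hq).1]
  rfl

end Pool.Agent.H7QC
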