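import Pool.Agent.H7QC.ArrQ
import Pool.Agent.H7CA.TurD

/-!
# Turing machines with counting quantifiers
-/

namespace Pool.Agent.H7QC

open Pool.Agent.PPS Pool.Agent.H7LS Pool.Agent.H7CA Filter Asymptotics

/-- Hard languages are hard for Turing machines with counting quantifiers. -/
theorem turing_of_hardQ {k K : ℕ} {c : ℝ} {L : Set (List Bool)} (hk : 1 ≤ k)
    (hlow : HardQ k K c L) : ∀ (κ γ : ℕ) (l T : ℕ → ℕ),
      (fun n : ℕ => (2 : ℝ) ^ l n * (l n + 1)) =o[atTop] (fun n : ℕ => (n : ℝ) ^ k) →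
      (fun n : ℕ => (T n : ℝ) * (l n + 1) * Nat.log 2 n) =o[atTop]
        (fun n : ℕ => (n : ℝ) ^ (2 * k)) →
      ∀ᶠ n : ℕ in atTop, ∀ (M : TM) (adv : M.K) (a : List Bool) (q : List (ℕ × ℕ)),
        Nat.card M.K ≤ κ → Nat.card M.Γ ≤ γ → Nat.card M.Q ≤ 2 ^ l n →
        a.length ≤ K * n ^ k → (q.map (fun r => r.1 + 1)).sum ≤ K * n ^ k →
        |({x : List Bool | x.length = n ∧
            (quant q (fun y => ansA M adv x (y ++ a) (T n)) = true ↔ x ∈ L)}.ncard : ℝ) /
          2 ^ n - 1 / 2| ≤ 2 ^ (-(c * n)) := by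
  have h := arrays_of_hardQ hk hlow
  intro κ γ l T ho1 ho2
  obtain ⟨A, hA⟩ : ∃ A : ℕ, A = 3 * ((γ + 2) ^ 6) ^ κ := ⟨_, rfl⟩
  obtain ⟨C, hC⟩ : ∃ C : ℕ, C = 4 + A + 1 := ⟨_, rfl⟩
  have hC1 : (1 : ℝ) ≤ C := by
    have : 1 ≤ C := by omega
    exact_mod_cast this
  have hpow : (fun n : ℕ => (n : ℝ)) =O[atTop] (fun n : ℕ => (n : ℝ) ^ k) := by
    refine IsBigO.of_bound 1 ?_
    filter_upwards [eventually_ge_atTop 1] with n hn
    rw [one_mul, Real.norm_of_nonneg (by positivity), Real.norm_of_nonneg (by positivity)]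
    have := le_pow_self' n hk
    exact_mod_cast this
  have hlo : (fun n : ℕ => ((l n : ℝ) + 1)) =o[atTop] (fun n : ℕ => (n : ℝ) ^ k) := by
    refine IsBigO.trans_isLittleO (IsBigO.of_bound 1 (Eventually.of_forall fun n => ?_)) ho1
    rw [one_mul, Real.norm_of_nonneg (by positivity), Real.norm_of_nonneg (by positivity)]
    have h1 : (1 : ℝ) ≤ 2 ^ l n := one_le_pow₀ (by norm_num)
    have h2 : (0 : ℝ) ≤ (l n : ℝ) + 1 := by positivity
    nlinarith
  have key := h 0 tabS tabS_mem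
    (fun n => (2 * (4 + A) + 1) + ((2 * (4 + A + (l n + 1)) + 1) +
      2 ^ ((4 + A) + ((4 + A + (l n + 1)) + (4 + A))) * (4 + A + (l n + 1))))
    (fun n => 4 + A + (l n + 1)) (fun n => 2 * T n + 1) (by
      refine IsBigO.trans_isLittleO (IsBigO.of_bound
        (2 ^ (3 * (4 + A) + 1) * C + 6 * C) (Eventually.of_forall fun n => ?_)) ho1
      rw [Real.norm_of_nonneg (by positivity), Real.norm_of_nonneg (by positivity)]
      push_cast
      have e1 : (2 : ℝ) ^ (4 + A + (4 + A + (l n + 1) + (4 + A))) =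
          2 ^ (3 * (4 + A) + 1) * 2 ^ l n := by
        rw [← pow_add]
        congr 1
        ring
      rw [e1]
      have h1 : (1 : ℝ) ≤ 2 ^ l n := one_le_pow₀ (by norm_num)
      have h2 : (0 : ℝ) ≤ (l n : ℝ) := Nat.cast_nonneg _
      have h3 : (C : ℝ) = 4 + A + 1 := by rw [hC]; push_cast; ring
      have h4 : (4 : ℝ) + A + (l n + 1) ≤ C * (l n + 1) := by
        rw [h3]
        have h5 : (0 : ℝ) ≤ (A : ℝ) * l n := by positivity
        nlinarith
      have h5 : (0 : ℝ) ≤ 2 ^ (3 * (4 + A) + 1) := by positivity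
      have h6 : (C : ℝ) * (l n + 1) ≤ C * (2 ^ l n * (l n + 1)) := by
        have h7 : (l n : ℝ) + 1 ≤ 2 ^ l n * (l n + 1) := by nlinarith
        exact mul_le_mul_of_nonneg_left h7 (by linarith)
      have h8 : (2 : ℝ) ^ (3 * (4 + A) + 1) * 2 ^ l n * (4 + A + (l n + 1)) ≤
          2 ^ (3 * (4 + A) + 1) * C * (2 ^ l n * (l n + 1)) := by
        have h9 : (2 : ℝ) ^ l n * (4 + A + (l n + 1)) ≤ 2 ^ l n * (C * (l n + 1)) :=
          mul_le_mul_of_nonneg_left h4 (by linarith)
        calc (2 : ℝ) ^ (3 * (4 + A) + 1) * 2 ^ l n * (4 + A + (l n + 1)) =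
            2 ^ (3 * (4 + A) + 1) * (2 ^ l n * (4 + A + (l n + 1))) := by ring
          _ ≤ 2 ^ (3 * (4 + A) + 1) * (2 ^ l n * (C * (l n + 1))) :=
            mul_le_mul_of_nonneg_left h9 h5
          _ = _ := by ring
      have h10 : (2 : ℝ) * (4 + A) + 1 + (2 * (4 + A + (l n + 1)) + 1) + (4 + A + (l n + 1)) ≤
          6 * (C * (l n + 1)) := by
        have h11 : (0 : ℝ) ≤ (A : ℝ) := Nat.cast_nonneg _
        linarith
      linarith) (by
      have hlog : (fun n : ℕ => (Nat.log 2 n : ℝ)) =O[atTop] (fun n : ℕ => (n : ℝ) ^ k) := by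
        refine IsBigO.trans (IsBigO.of_bound 1 (Eventually.of_forall fun n => ?_)) hpow
        rw [one_mul, Real.norm_of_nonneg (by positivity), Real.norm_of_nonneg (by positivity)]
        exact_mod_cast Nat.log_le_self 2 n
      have h1 : (fun n : ℕ => ((l n : ℝ) + 1) * Nat.log 2 n) =o[atTop]
          (fun n : ℕ => (n : ℝ) ^ (2 * k)) := by
        have h2 := hlo.mul_isBigO hlog
        refine h2.congr_right (fun n => ?_)
        rw [← pow_add]
        congr 1
        ring
      have h2 : (fun n : ℕ => 2 * C * ((T n : ℝ) * (l n + 1) * Nat.log 2 n) +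
          C * (((l n : ℝ) + 1) * Nat.log 2 n)) =o[atTop] (fun n : ℕ => (n : ℝ) ^ (2 * k)) :=
        (ho2.const_mul_left _).add (h1.const_mul_left _)
      have e2 : k * (0 + 2) = 2 * k := by ring
      rw [e2]
      refine IsBigO.trans_isLittleO (IsBigO.of_bound 1 (Eventually.of_forall fun n => ?_)) h2
      rw [one_mul, Real.norm_of_nonneg (by positivity), Real.norm_of_nonneg (by positivity)]
      push_cast
      have h3 : (C : ℝ) = 4 + A + 1 := by rw [hC]; push_cast; ring
      have h4 : (4 : ℝ) + A + (l n + 1) ≤ C * (l n + 1) := by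
        rw [h3]
        have h5 : (0 : ℝ) ≤ (A : ℝ) * l n := by positivity
        have h2 : (0 : ℝ) ≤ (l n : ℝ) := Nat.cast_nonneg _
        nlinarith
      rw [pow_one]
      calc (2 * (T n : ℝ) + 1) * Nat.log 2 n * (4 + A + (l n + 1)) ≤
          (2 * (T n : ℝ) + 1) * Nat.log 2 n * (C * (l n + 1)) :=
            mul_le_mul_of_nonneg_left h4 (by positivity)
        _ = _ := by ring)
  filter_upwards [key, eventually_ge_atTop 1] with n hn hn1
  intro M adv a q hM1 hM2 hM3 ha hq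
  have hcF : Nat.card (FT M) ≤ 2 ^ A := by
    refine (card_FT M hM1 hM2).trans ?_
    rw [← hA]
    exact (Nat.lt_two_pow_self).le
  have hcC : Nat.card (Option M.Q) ≤ 2 ^ (l n + 1) := by
    rw [Finite.card_option, pow_succ]
    have : 1 ≤ 2 ^ l n := Nat.one_le_two_pow
    omega
  obtain ⟨E⟩ := exists_coding M hcF hcC
  have h1 := hn (tableS (E.psi adv) (4 + A) (4 + A + (l n + 1))) a q
    (length_tableS _ _ _).le ha hq
  have h2 : ∀ x a : List Bool, x.length = n →
      (arr 0 (ruleD tabS (tableS (E.psi adv) (4 + A) (4 + A + (l n + 1)))) n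
        (4 + A + (l n + 1)) x a (2 * T n + 1) 0).getD 0 false = ansA M adv x a (T n) := by
    intro x a hx
    rw [arr_zero_eq, cell_tabS _ (by omega) (by omega)]
    exact cell_ans E adv hn1 x a hx (T n)
  have h3 : {x : List Bool | x.length = n ∧
      (quant q (fun y => (arr 0 (ruleD tabS (tableS (E.psi adv) (4 + A) (4 + A + (l n + 1)))) n
        (4 + A + (l n + 1)) x (y ++ a) (2 * T n + 1) 0).getD 0 false) = true ↔ x ∈ L)} =
      {x : List Bool | x.length = n ∧
        (quant q (fun y => ansA M adv x (y ++ a) (T n)) = true ↔ x ∈ L)} := by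
    ext x
    simp only [Set.mem_setOf_eq]
    refine and_congr_right (fun hx => ?_)
    simp only [h2 x _ hx]
  rw [h3] at h1
  exact h1

end Pool.Agent.H7QC
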